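import Pool.Agent.Y522.Basic

/-!
# Local homeomorphisms of compact spaces with one simple value are bijective
-/

set_option autoImplicit false

open Set Filter Topology Function

namespace Pool.Agent.Q235.NL

/-- a continuous, open, locally injective map of a compact space to a connected space which takes
some value exactly once is bijective -/
theorem bij_of_local {M N : Type*} [TopologicalSpace M] [T2Space M] [CompactSpace M]
    [TopologicalSpace N] [T2Space N] [ConnectedSpace N] {g : M → N} (hc : Continuous g)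
    (ho : ∀ x, ∀ s ∈ 𝓝 x, g '' s ∈ 𝓝 (g x)) (hl : ∀ x, ∃ u ∈ 𝓝 x, InjOn g u)
    {y : N} {x₀ : M} (hx₀ : g x₀ = y) (hy : ∀ x, g x = y → x = x₀) : Bijective g := by
  have hopen : ∀ U : Set M, IsOpen U → IsOpen (g '' U) := by
    intro U hU
    rw [isOpen_iff_mem_nhds]
    rintro _ ⟨x, hx, rfl⟩
    exact ho x U (hU.mem_nhds hx)
  have hsurj : Surjective g := by
    have h1 : IsOpen (range g) := by
      rw [← image_univ]
      exact hopen _ isOpen_univ
    have h2 : IsClosed (range g) := (isCompact_range hc).isClosed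
    have h3 : range g = univ := IsClopen.eq_univ ⟨h2, h1⟩ ⟨_, x₀, rfl⟩
    exact range_eq_univ.1 h3
  refine ⟨?_, hsurj⟩
  -- the double points
  let D : Set N := {y | ∃ x x', x ≠ x' ∧ g x = y ∧ g x' = y}
  have hDo : IsOpen D := by
    rw [isOpen_iff_mem_nhds]
    rintro y ⟨x, x', hxx, hx, hx'⟩
    obtain ⟨U, W, hU, hW, hxU, hxW, hUW⟩ := t2_separation hxx
    have h1 : g '' U ∩ g '' W ∈ 𝓝 y := by
      apply IsOpen.mem_nhds ((hopen U hU).inter (hopen W hW))
      exact ⟨⟨x, hxU, hx⟩, ⟨x', hxW, hx'⟩⟩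
    filter_upwards [h1] with z hz
    obtain ⟨⟨a, ha, haz⟩, ⟨b, hb, hbz⟩⟩ := hz
    refine ⟨a, b, ?_, haz, hbz⟩
    rintro rfl
    exact (Set.disjoint_left.mp hUW) ha hb
  have hDc : IsClosed D := by
    have hloc : ∀ x : M, ∃ U : Set M, IsOpen U ∧ x ∈ U ∧ InjOn g U := by
      intro x
      obtain ⟨u, hu, hinj⟩ := hl x
      obtain ⟨v, hv1, hv2, hv3⟩ := mem_nhds_iff.mp hu
      exact ⟨v, hv2, hv3, hinj.mono hv1⟩
    choose U hU1 hU2 hU3 using hloc
    let W : Set (M × M) := ⋃ x, U x ×ˢ U x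
    have hW : IsOpen W := isOpen_iUnion fun x => (hU1 x).prod (hU1 x)
    have hQ : IsCompact ({p : M × M | g p.1 = g p.2} ∩ Wᶜ) := by
      apply IsClosed.isCompact
      apply IsClosed.inter
      · exact isClosed_eq (hc.comp continuous_fst) (hc.comp continuous_snd)
      · exact hW.isClosed_compl
    have h1 : D = (fun p : M × M => g p.1) '' ({p : M × M | g p.1 = g p.2} ∩ Wᶜ) := by
      ext z
      constructor
      · rintro ⟨x, x', hxx, hx, hx'⟩
        refine ⟨(x, x'), ⟨?_, ?_⟩, hx⟩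
        · show g x = g x'
          rw [hx, hx']
        · intro hxW
          obtain ⟨w, hw⟩ := mem_iUnion.mp hxW
          exact hxx (hU3 w hw.1 hw.2 (by show g x = g x'; rw [hx, hx']))
      · rintro ⟨⟨x, x'⟩, ⟨h3, h4⟩, rfl⟩
        refine ⟨x, x', ?_, rfl, h3.symm⟩
        rintro rfl
        exact h4 (mem_iUnion.mpr ⟨x, hU2 x, hU2 x⟩)
    rw [h1]
    exact (hQ.image (hc.comp continuous_fst)).isClosed
  have hD : D = ∅ := by
    rcases isClopen_iff.1 ⟨hDc, hDo⟩ with h | h
    · exact h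
    · exfalso
      have hyD : y ∈ D := by rw [h]; exact mem_univ _
      obtain ⟨x, x', hxx, hx, hx'⟩ := hyD
      exact hxx ((hy x hx).trans (hy x' hx').symm)
  intro a b hab
  by_contra hne
  have h1 : g a ∈ D := ⟨a, b, hne, rfl, hab.symm⟩
  rw [hD] at h1
  exact h1

end Pool.Agent.Q235.NL
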