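import Pool.Agent.Q235.NL.Smooth

/-!
# Maps which are close to similarities at all small scales are close to linear maps
-/

set_option autoImplicit false

open Set Filter Topology Metric Function MeasureTheory
open scoped Manifold ContDiff

noncomputable section

namespace Pool.Agent.Q235.NL

open Pool.Agent.Y522

variable {n : ℕ}

/-- `F` is close to a similarity at all small scales near `x`: only distances are compared -/
def NearSim (n : ℕ) (ε : ℝ) (F : E n → E n) (x : E n) : Prop :=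
  ∃ ρ : ℝ, 0 < ρ ∧ ∀ z, ‖z - x‖ < ρ → ∀ r, 0 < r → r < ρ → ∃ c : ℝ, 0 < c ∧
    ∀ p q, ‖p - z‖ ≤ r → ‖q - z‖ ≤ r → |‖F p - F q‖ - c * ‖p - q‖| ≤ ε * c * r

lemma norm_le_of_coords {v : E n} {a : ℝ} (ha : 0 ≤ a) (h : ∀ i, |v i| ≤ a) :
    ‖v‖ ≤ (n + 1) * a := by
  have h1 : ‖v‖ ^ 2 ≤ n * a ^ 2 := by
    rw [EuclideanSpace.norm_sq_eq]
    calc ∑ i, ‖v i‖ ^ 2 ≤ ∑ _i : Fin n, a ^ 2 := by
          refine Finset.sum_le_sum fun i _ => ?_
          rw [Real.norm_eq_abs]
          exact pow_le_pow_left₀ (abs_nonneg _) (h i) 2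
      _ = n * a ^ 2 := by simp
  have hn : (0 : ℝ) ≤ n := Nat.cast_nonneg n
  refine abs_le_of_sq_le_sq' ?_ (by positivity) |>.2
  nlinarith [mul_nonneg hn (sq_nonneg a), sq_nonneg a]

/-- comparison of squares -/
lemma sq_close {a b e m : ℝ} (ha : 0 ≤ a) (hb : 0 ≤ b) (hm : b ≤ m) (he : |a - b| ≤ e)
    : |a ^ 2 - b ^ 2| ≤ e * (2 * m + e) := by
  have h1 : a ^ 2 - b ^ 2 = (a - b) * (a + b) := by ring
  rw [h1, abs_mul, abs_of_nonneg (by linarith : 0 ≤ a + b)]
  have h2 : a ≤ b + e := by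
    have := (abs_le.1 he).2
    linarith
  exact mul_le_mul he (by linarith) (by linarith) ((abs_nonneg _).trans he)

theorem nearLin_of_nearSim {ε : ℝ} (hε0 : 0 < ε) (hε1 : ε ≤ 1) {F : E n → E n} {x : E n}
    (h : NearSim n ε F x) : NearLin n ((n + 1) * (6 * ε)) F x := by
  obtain ⟨ρ, hρ, h⟩ := h
  refine ⟨ρ, hρ, fun z hz r hr hr' => ?_⟩
  obtain ⟨c, hc, hcd⟩ := h z hz r hr hr'
  -- the images of the basis vectors
  set e : Fin n → E n := fun i => EuclideanSpace.single i (r : ℝ) with he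
  have hen : ∀ i, ‖e i‖ = r := by
    intro i
    rw [he]
    simp only [EuclideanSpace.norm_single, Real.norm_eq_abs, abs_of_pos hr]
  set a : Fin n → E n := fun i => F (z + e i) - F z with ha
  have hcr : c ^ 2 * r ≠ 0 := by positivity
  refine ⟨(c ^ 2 * r)⁻¹ • ∑ i, (innerSL ℝ (a i)).smulRight (EuclideanSpace.single i (1 : ℝ)), ?_⟩
  intro w hw
  have hdist : ∀ p q : E n, ‖p‖ ≤ r → ‖q‖ ≤ r →
      |‖F (z + p) - F (z + q)‖ - c * ‖p - q‖| ≤ ε * c * r := by
    intro p q hp hq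
    have := hcd (z + p) (z + q) (by rwa [add_sub_cancel_left]) (by rwa [add_sub_cancel_left])
    rwa [add_sub_add_left_eq_sub] at this
  set y : E n := F (z + w) - F z with hy
  have hcw : c * ‖w‖ ≤ c * r := mul_le_mul_of_nonneg_left hw hc.le
  have d1 : |‖y‖ ^ 2 - (c * ‖w‖) ^ 2| ≤ (ε * c * r) * (2 * (c * r) + ε * c * r) := by
    refine sq_close (norm_nonneg _) (by positivity) hcw ?_
    have := hdist w 0 hw (by simp [hr.le])
    simpa [hy] using this
  have d2 : ∀ i, |‖a i‖ ^ 2 - (c * r) ^ 2| ≤ (ε * c * r) * (2 * (c * r) + ε * c * r) := by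
    intro i
    refine sq_close (norm_nonneg _) (by positivity) le_rfl ?_
    have := hdist (e i) 0 (hen i).le (by simp [hr.le])
    rw [sub_zero, hen i, add_zero] at this
    exact this
  have d3 : ∀ i, |‖y - a i‖ ^ 2 - (c * ‖w - e i‖) ^ 2| ≤
      (ε * c * r) * (2 * (2 * (c * r)) + ε * c * r) := by
    intro i
    refine sq_close (norm_nonneg _) (by positivity) ?_ ?_
    · have h1 := norm_sub_le w (e i)
      rw [hen i] at h1
      nlinarith
    · have := hdist w (e i) hw (hen i).le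
      have e1 : y - a i = F (z + w) - F (z + e i) := by
        simp only [hy, ha]
        abel
      rw [e1]
      exact this
  have hin : ∀ i, |inner ℝ (a i) y - c ^ 2 * r * w i| ≤ 6 * ε * (c ^ 2 * r) * r := by
    intro i
    have e1 : ‖y - a i‖ ^ 2 = ‖y‖ ^ 2 - 2 * inner ℝ (a i) y + ‖a i‖ ^ 2 := by
      rw [norm_sub_sq_real, real_inner_comm]
    have e2 : ‖w - e i‖ ^ 2 = ‖w‖ ^ 2 - 2 * (r * w i) + r ^ 2 := by
      rw [norm_sub_sq_real, hen i]
      congr 2
      simp [he, EuclideanSpace.inner_single_right]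
    have h1 := d1
    have h2 := d2 i
    have h3 := d3 i
    rw [e1, mul_pow, e2] at h3
    rw [mul_pow] at h1 h2
    have hb : ε * c * r * (ε * c * r) ≤ ε * (c ^ 2 * r ^ 2) := by
      have : ε * ε ≤ ε * 1 := mul_le_mul_of_nonneg_left hε1 hε0.le
      have h4 : 0 ≤ c ^ 2 * r ^ 2 := by positivity
      nlinarith
    have k1 := abs_le.1 h1
    have k2 := abs_le.1 h2
    have k3 := abs_le.1 h3
    rw [abs_le]
    constructor
    · nlinarith [k1.1, k2.1, k3.2]
    · nlinarith [k1.2, k2.2, k3.1]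
  have hLi : ∀ i, (((c ^ 2 * r)⁻¹ • ∑ i, (innerSL ℝ (a i)).smulRight
      (EuclideanSpace.single i (1 : ℝ)) : E n →L[ℝ] E n) y - w) i =
        (c ^ 2 * r)⁻¹ * (inner ℝ (a i) y - c ^ 2 * r * w i) := by
    intro i
    have e1 : ((c ^ 2 * r)⁻¹ • ∑ i, (innerSL ℝ (a i)).smulRight
      (EuclideanSpace.single i (1 : ℝ)) : E n →L[ℝ] E n) y =
        (c ^ 2 * r)⁻¹ • ∑ i, (inner ℝ (a i) y) • (EuclideanSpace.single i (1 : ℝ) : E n) := by
      rw [_root_.smul_apply, ContinuousLinearMap.sum_apply]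
      rfl
    rw [e1]
    have e2 : (∑ j, (inner ℝ (a j) y) • (EuclideanSpace.single j (1 : ℝ) : E n)) i =
        inner ℝ (a i) y := by
      rw [WithLp.ofLp_sum, Finset.sum_apply, Finset.sum_eq_single i]
      · simp
      · intro j _ hj
        simp [hj.symm]
      · simp
    rw [PiLp.sub_apply, PiLp.smul_apply, e2, smul_eq_mul, mul_sub, ← mul_assoc,
      inv_mul_cancel₀ hcr, one_mul]
  have hfin := norm_le_of_coords (a := 6 * ε * r) (by positivity) (v := ((c ^ 2 * r)⁻¹ • ∑ i,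
      (innerSL ℝ (a i)).smulRight (EuclideanSpace.single i (1 : ℝ)) : E n →L[ℝ] E n) y - w) (by
    intro i
    rw [hLi i, abs_mul, abs_of_pos (by positivity : 0 < (c ^ 2 * r)⁻¹),
      inv_mul_le_iff₀ (by positivity)]
    refine (hin i).trans (le_of_eq (by ring)))
  refine hfin.trans (le_of_eq (by ring))

/-- the constant for similarities -/
def epsS (n : ℕ) : ℝ := min 1 (eps n / (6 * (n + 1)))

lemma epsS_pos : 0 < epsS n := by
  have := eps_pos (n := n)
  unfold epsS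
  positivity

theorem NearLin.mono {ε ε' : ℝ} (hε : ε ≤ ε') {F : E n → E n} {x : E n} (h : NearLin n ε F x) :
    NearLin n ε' F x := by
  obtain ⟨ρ, hρ, h⟩ := h
  refine ⟨ρ, hρ, fun z hz r hr hr' => ?_⟩
  obtain ⟨L, hL⟩ := h z hz r hr hr'
  exact ⟨L, fun w hw => (hL w hw).trans (mul_le_mul_of_nonneg_right hε hr.le)⟩

theorem nearLin_of_epsS {ε : ℝ} (hε : 0 < ε) (hε' : ε ≤ epsS n) {F : E n → E n} {x : E n}
    (h : NearSim n ε F x) : NearLin n (eps n) F x := by
  refine (nearLin_of_nearSim hε (hε'.trans (min_le_left _ _)) h).mono ?_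
  have h1 : ε ≤ eps n / (6 * (n + 1)) := hε'.trans (min_le_right _ _)
  have h2 : (0 : ℝ) < 6 * (n + 1) := by positivity
  rw [le_div_iff₀ h2] at h1
  linarith

end Pool.Agent.Q235.NL
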