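import Pool.Agent.Q235.NL.Smooth
import Pool.Agent.Y522.Sch

/-!
# Smoothing of isotopies which are close to linear at all small scales
-/

set_option autoImplicit false

open Set Filter Topology Metric Function MeasureTheory
open scoped Manifold ContDiff Convolution

noncomputable section

namespace Pool.Agent.Q235.NL

open Pool.Agent.Y522 Pool.Agent.Y954.SH

variable {n : ℕ}

/-- smooth isotopy with compact support in `U`, constant for `t ≤ 0` and for `t ≥ 1` -/
def Iso (U : Set (E n)) (f g : E n → E n) : Prop :=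
  ∃ (Φ : ℝ → E n → E n) (C : Set (E n)), IsCompact C ∧ C ⊆ U ∧ ContDiff ℝ ∞ (uncurry Φ) ∧
    (∀ t x, LD n (Φ t) x) ∧ (∀ t x, x ∉ C → Φ t x = x) ∧ (∀ t, t ≤ 0 → Φ t = f) ∧
    ∀ t, 1 ≤ t → Φ t = g

theorem Iso.symm {U : Set (E n)} {f g : E n → E n} (h : Iso U f g) : Iso U g f := by
  obtain ⟨Φ, C, hC, hCU, hs, hL, hid, h0, h1⟩ := h
  refine ⟨fun t => Φ (1 - t), C, hC, hCU, ?_, fun t x => hL _ x, fun t x hx => hid _ x hx,
    fun t ht => h1 _ (by linarith), fun t ht => h0 _ (by linarith)⟩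
  exact hs.comp ((contDiff_const.sub contDiff_fst).prodMk contDiff_snd)

theorem Iso.trans {U : Set (E n)} {f g k : E n → E n} (h : Iso U f g) (h' : Iso U g k) :
    Iso U f k := by
  obtain ⟨Φ, C, hC, hCU, hs, hL, hid, h0, h1⟩ := h
  obtain ⟨Φ', C', hC', hCU', hs', hL', hid', h0', h1'⟩ := h'
  have hgs : ContDiff ℝ ∞ g := by
    have h2 : ContDiff ℝ ∞ (fun x : E n => uncurry Φ (1, x)) :=
      hs.comp (contDiff_const.prodMk contDiff_id)
    have h3 : (fun x : E n => uncurry Φ (1, x)) = g := h1 1 le_rfl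
    rwa [h3] at h2
  have e1 : ∀ t, t ≤ 1 / 2 → (fun x => Φ (2 * t) x + Φ' (2 * t - 1) x - g x) = Φ (2 * t) := by
    intro t ht
    funext x
    rw [h0' (2 * t - 1) (by linarith)]
    abel
  have e2 : ∀ t, 1 / 2 ≤ t → (fun x => Φ (2 * t) x + Φ' (2 * t - 1) x - g x) = Φ' (2 * t - 1) := by
    intro t ht
    funext x
    rw [h1 (2 * t) (by linarith)]
    abel
  refine ⟨fun t x => Φ (2 * t) x + Φ' (2 * t - 1) x - g x, C ∪ C', hC.union hC',
    union_subset hCU hCU', ?_, ?_, ?_, ?_, ?_⟩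
  · have a1 : ContDiff ℝ ∞ fun p : ℝ × E n => uncurry Φ (2 * p.1, p.2) :=
      hs.comp ((contDiff_const.mul contDiff_fst).prodMk contDiff_snd)
    have a2 : ContDiff ℝ ∞ fun p : ℝ × E n => uncurry Φ' (2 * p.1 - 1, p.2) :=
      hs'.comp (((contDiff_const.mul contDiff_fst).sub contDiff_const).prodMk contDiff_snd)
    exact (a1.add a2).sub (hgs.comp contDiff_snd)
  · intro t x
    show LD n (fun x => Φ (2 * t) x + Φ' (2 * t - 1) x - g x) x
    rcases le_total t (1 / 2) with ht | ht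
    · rw [e1 t ht]; exact hL _ x
    · rw [e2 t ht]; exact hL' _ x
  · intro t x hx
    rcases le_total t (1 / 2) with ht | ht
    · exact (congrFun (e1 t ht) x).trans (hid _ x fun h => hx (Or.inl h))
    · exact (congrFun (e2 t ht) x).trans (hid' _ x fun h => hx (Or.inr h))
  · intro t ht
    exact (e1 t (by linarith)).trans (h0 _ (by linarith))
  · intro t ht
    exact (e2 t (by linarith)).trans (h1' _ (by linarith))

/-- isotopies along segments -/
theorem Iso.straight {U C : Set (E n)} {f g : E n → E n} (hC : IsCompact C) (hCU : C ⊆ U)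
    (hf : ContDiff ℝ ∞ f) (hg : ContDiff ℝ ∞ g) (hfC : ∀ x, x ∉ C → f x = x)
    (hgC : ∀ x, x ∉ C → g x = x)
    (hL : ∀ τ : ℝ, 0 ≤ τ → τ ≤ 1 → ∀ x, LD n (fun x => (1 - τ) • f x + τ • g x) x) :
    Iso U f g := by
  have hχ : ContDiff ℝ ∞ Real.smoothTransition := Real.smoothTransition.contDiff
  refine ⟨fun t x => (1 - Real.smoothTransition t) • f x + Real.smoothTransition t • g x, C, hC,
    hCU, ?_, ?_, ?_, ?_, ?_⟩
  · have a1 : ContDiff ℝ ∞ fun p : ℝ × E n => Real.smoothTransition p.1 := hχ.comp contDiff_fst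
    exact ((contDiff_const.sub a1).smul (hf.comp contDiff_snd)).add
      (a1.smul (hg.comp contDiff_snd))
  · intro t x
    exact hL _ (Real.smoothTransition.nonneg t) (Real.smoothTransition.le_one t) x
  · intro t x hx
    show (1 - Real.smoothTransition t) • f x + Real.smoothTransition t • g x = x
    rw [hfC x hx, hgC x hx, ← add_smul]
    simp
  · intro t ht
    funext x
    simp only [Real.smoothTransition.zero_of_nonpos ht]
    simp
  · intro t ht
    funext x
    simp only [Real.smoothTransition.one_of_one_le ht]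
    simp

/-- the mollification as a function of the scale -/
def MM (f : E n → E n) (σ : ℝ) (x : E n) : E n := ∫ t, kr n t • f (x - σ • t)

theorem MM_eq {f : E n → E n} {σ : ℝ} (hσ : σ ≠ 0) : MM f σ = MS σ f := by
  funext x
  show (∫ t, kr n t • f (x - σ • t)) = ∫ t, kr n t • f (σ • (σ⁻¹ • x - t))
  congr 1
  funext t
  rw [smul_sub, smul_smul, mul_inv_cancel₀ hσ, one_smul]

theorem MM_zero {f : E n → E n} : MM f 0 = f := by
  funext x
  show (∫ t, kr n t • f (x - (0:ℝ) • t)) = f x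
  simp only [zero_smul, sub_zero]
  rw [integral_smul_const, kr_int, one_smul]

/-- cut off family -/
def gg (b : E n → ℝ) (f : E n → E n) (p : ℝ × E n) (y : E n) : E n := b y • f (p.2 + p.1 • y)

theorem gg_smooth {b : E n → ℝ} (hb : ContDiff ℝ ∞ b) {f : E n → E n} (hf : ContDiff ℝ ∞ f) :
    ContDiff ℝ ∞ fun q : (ℝ × E n) × E n => gg b f q.1 q.2 := by
  have a1 : ContDiff ℝ ∞ fun q : (ℝ × E n) × E n => b q.2 := hb.comp contDiff_snd
  have a2 : ContDiff ℝ ∞ fun q : (ℝ × E n) × E n => q.1.2 + q.1.1 • q.2 :=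
    (contDiff_snd.comp contDiff_fst).add ((contDiff_fst.comp contDiff_fst).smul contDiff_snd)
  exact a1.smul (hf.comp a2)

theorem conv_smooth {b : E n → ℝ} (hb : ContDiff ℝ ∞ b)
    (hb2 : ∀ y, y ∉ closedBall (0 : E n) 2 → b y = 0) {f : E n → E n} (hf : ContDiff ℝ ∞ f) :
    ContDiff ℝ ∞ fun q : (ℝ × E n) × E n =>
      (kr n ⋆[(ContinuousLinearMap.lsmul ℝ ℝ : ℝ →L[ℝ] E n →L[ℝ] E n), volume] gg b f q.1) q.2 := by
  have h1 := contDiffOn_convolution_right_with_param (μ := (volume : Measure (E n)))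
    (f := kr n) (n := (⊤ : ℕ∞)) (ContinuousLinearMap.lsmul ℝ ℝ : ℝ →L[ℝ] E n →L[ℝ] E n)
    (g := gg b f) (s := univ) (k := closedBall (0 : E n) 2) isOpen_univ
    (isCompact_closedBall _ _) (by
      intro p y _ hy
      show b y • f (p.2 + p.1 • y) = 0
      rw [hb2 y hy, zero_smul]) kr_smooth.continuous.locallyIntegrable (by
        exact (gg_smooth hb hf).contDiffOn)
  rw [univ_prod_univ, contDiffOn_univ] at h1
  exact h1

theorem MM_conv {b : E n → ℝ} (hb1 : ∀ y : E n, ‖y‖ ≤ 1 → b y = 1) (f : E n → E n)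
    (p : ℝ × E n) : MM f p.1 p.2 =
      (kr n ⋆[(ContinuousLinearMap.lsmul ℝ ℝ : ℝ →L[ℝ] E n →L[ℝ] E n), volume] gg b f p) 0 := by
  rw [convolution_def]
  show (∫ t, kr n t • f (p.2 - p.1 • t)) = ∫ t, kr n t • gg b f p (0 - t)
  congr 1
  funext t
  by_cases ht : ‖t‖ ≤ 1
  · have hb : b (0 - t) = 1 := by
      apply hb1
      simpa using ht
    show _ = kr n t • (b (0 - t) • f (p.2 + p.1 • (0 - t)))
    rw [hb, one_smul, zero_sub, smul_neg, ← sub_eq_add_neg]
  · rw [kr_zero (not_le.1 ht).le, zero_smul, zero_smul]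

theorem exists_bump (n : ℕ) : ∃ b : E n → ℝ, ContDiff ℝ ∞ b ∧
    (∀ y, y ∉ closedBall (0 : E n) 2 → b y = 0) ∧ ∀ y : E n, ‖y‖ ≤ 1 → b y = 1 := by
  let b : ContDiffBump (0 : E n) := ⟨1, 2, one_pos, one_lt_two⟩
  refine ⟨b, b.contDiff, ?_, fun y hy => b.one_of_mem_closedBall (by
    rwa [mem_closedBall_zero_iff])⟩
  intro y hy
  apply b.zero_of_le_dist
  rw [mem_closedBall, not_le] at hy
  exact hy.le

theorem MM_smooth {f : E n → E n} (hf : ContDiff ℝ ∞ f) :
    ContDiff ℝ ∞ fun p : ℝ × E n => MM f p.1 p.2 := by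
  obtain ⟨b, hb, hb2, hb1⟩ := exists_bump n
  have h1 := conv_smooth hb hb2 hf
  have h2 : (fun p : ℝ × E n => MM f p.1 p.2) = fun p : ℝ × E n =>
      (kr n ⋆[(ContinuousLinearMap.lsmul ℝ ℝ : ℝ →L[ℝ] E n →L[ℝ] E n), volume] gg b f p) 0 := by
    funext p
    exact MM_conv hb1 f p
  rw [h2]
  have h3 : ContDiff ℝ ∞ fun p : ℝ × E n => (p, (0 : E n)) := contDiff_id.prodMk contDiff_const
  exact ContDiff.comp (g := fun q : (ℝ × E n) × E n =>
      (kr n ⋆[(ContinuousLinearMap.lsmul ℝ ℝ : ℝ →L[ℝ] E n →L[ℝ] E n), volume] gg b f q.1) q.2)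
    (f := fun p : ℝ × E n => (p, (0 : E n))) h1 h3

theorem ld_MS {F : E n → E n} (hF : Continuous F) {s : ℝ} (hs : 0 < s) {x : E n}
    (h : ∃ L : E n →L[ℝ] E n, ∀ w, ‖w‖ ≤ s → ‖L (F (x + w) - F x) - w‖ ≤ eps n * s) :
    LD n (MS s F) x := by
  obtain ⟨L, hL⟩ := h
  obtain ⟨h1, -⟩ := MS_near hF.locallyIntegrable hs hL
  have hsm := MS_smooth hF.locallyIntegrable hs
  obtain ⟨A, hA⟩ := equiv_of_near (D := fderiv ℝ (MS s F) x) (L := L) (c := 1 / 2) (by norm_num)
    fun v => (h1 v).trans (mul_le_mul_of_nonneg_right ck_eps (norm_nonneg v))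
  refine LD_of_contDiffAt (Eventually.of_forall fun y => hsm.contDiffAt) A ?_
  rw [hA]
  exact (hsm.differentiable (by simp) x).hasFDerivAt

theorem MS_id {F : E n → E n} {s : ℝ} (hs : 0 < s) {x : E n}
    (h : ∀ w, ‖w‖ ≤ s → F (x + w) = x + w) : MS s F x = x := by
  rw [MS_congr (F' := fun y => y) hs h]
  have hk := MS_near (F := fun y : E n => y) continuous_id.locallyIntegrable hs (x := x)
    (L := ContinuousLinearMap.id ℝ (E n)) (ε := 0) (by
      intro w _
      simp)
  have h2 := hk.2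
  rw [zero_mul] at h2
  have h3 := norm_le_zero_iff.1 h2
  rw [ContinuousLinearMap.id_apply] at h3
  exact sub_eq_zero.1 h3

theorem fderiv_MS_apply {F : E n → E n} (hF : Continuous F) {s : ℝ} (hs : 0 < s) (x v : E n) :
    fderiv ℝ (MS s F) x v =
      ∫ t in closedBall (0 : E n) 1, (fderiv ℝ (kr n) t (s⁻¹ • v)) • F (x - s • t) := by
  have hF1 := li_scale hF.locallyIntegrable hs
  obtain ⟨D, hD, hDv⟩ := M1_hasFDerivAt hF1 (s⁻¹ • x)
  have hd : HasFDerivAt (MS s F) (D.comp (s⁻¹ • ContinuousLinearMap.id ℝ (E n))) x :=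
    hD.comp x ((hasFDerivAt_id x).const_smul s⁻¹)
  rw [hd.fderiv]
  show D (s⁻¹ • v) = _
  rw [hDv]
  rw [setIntegral_eq_integral_of_forall_compl_eq_zero]
  · congr 1
    funext t
    rw [smul_sub, smul_smul, mul_inv_cancel₀ hs.ne', one_smul]
  · intro t ht
    rw [mem_closedBall_zero_iff, not_le] at ht
    rw [fderiv_kr_zero ht]
    simp

theorem cont_fderiv_MS {H : ℝ → E n → E n} (hH : Continuous (uncurry H)) {s : ℝ} (hs : 0 < s) :
    Continuous fun p : ℝ × E n => fderiv ℝ (MS s (H p.1)) p.2 := by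
  rw [continuous_clm_apply]
  intro v
  have h1 : (fun p : ℝ × E n => fderiv ℝ (MS s (H p.1)) p.2 v) = fun p : ℝ × E n =>
      ∫ t in closedBall (0 : E n) 1, (fderiv ℝ (kr n) t (s⁻¹ • v)) • H p.1 (p.2 - s • t) := by
    funext p
    have hc : Continuous (H p.1) := hH.comp (continuous_const.prodMk continuous_id)
    exact fderiv_MS_apply hc hs p.2 v
  rw [h1]
  refine continuous_parametric_integral_of_continuous ?_ (isCompact_closedBall _ _)
  have a1 : Continuous fun q : (ℝ × E n) × E n => fderiv ℝ (kr n) q.2 (s⁻¹ • v) :=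
    (fderiv_kr_cont.comp continuous_snd).clm_apply continuous_const
  have a2 : Continuous fun q : (ℝ × E n) × E n => uncurry H (q.1.1, q.1.2 - s • q.2) :=
    hH.comp ((continuous_fst.comp continuous_fst).prodMk
      ((continuous_snd.comp continuous_fst).sub (continuous_snd.const_smul s)))
  exact a1.smul a2

/-- **Smoothing of isotopies**: an isotopy of homeomorphisms with compact support, close to linear
at all scales `< ρ`, between diffeomorphisms can be replaced by a smooth one. -/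
theorem iso_of_near {H : ℝ → E n → E n} (hH : Continuous (uncurry H)) {K U : Set (E n)}
    (hK : IsCompact K) (hU : IsOpen U) (hKU : K ⊆ U) (hid : ∀ t x, x ∉ K → H t x = x) {ρ : ℝ}
    (hρ : 0 < ρ) (hnear : ∀ t z r, 0 < r → r < ρ → ∃ L : E n →L[ℝ] E n,
      ∀ w, ‖w‖ ≤ r → ‖L (H t (z + w) - H t z) - w‖ ≤ eps n * r)
    (hs0 : ContDiff ℝ ∞ (H 0)) (hL0 : ∀ x, LD n (H 0) x)
    (hs1 : ContDiff ℝ ∞ (H 1)) (hL1 : ∀ x, LD n (H 1) x) : Iso U (H 0) (H 1) := by
  obtain ⟨δ, hδ, hδU⟩ := hK.exists_cthickening_subset_open hU hKU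
  set s : ℝ := min δ (ρ / 2) with hs
  have hs_pos : 0 < s := lt_min hδ (by linarith)
  have hsρ : s < ρ := (min_le_right _ _).trans_lt (by linarith)
  set C : Set (E n) := cthickening δ K with hC
  have hCc : IsCompact C := hK.cthickening
  have hout : ∀ x, x ∉ C → ∀ w : E n, ‖w‖ ≤ s → x + w ∉ K := by
    intro x hx w hw hxw
    apply hx
    refine mem_cthickening_of_dist_le x (x + w) δ K hxw ?_
    rw [dist_eq_norm]
    simpa using hw.trans (min_le_left _ _)
  have hcont : ∀ t, Continuous (H t) := fun t => hH.comp (continuous_const.prodMk continuous_id)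
  have hMSid : ∀ (F : E n → E n), (∀ x, x ∉ K → F x = x) → ∀ σ : ℝ, 0 < σ → σ ≤ s → ∀ x, x ∉ C →
      MS σ F x = x := fun F hF σ hσ hσs x hx =>
    MS_id hσ fun w hw => hF _ (hout x hx w (hw.trans hσs))
  -- mollification of a diffeomorphism
  have key1 : ∀ t, ContDiff ℝ ∞ (H t) → (∀ x, LD n (H t) x) → Iso U (H t) (MS s (H t)) := by
    intro t hst hLt
    have hpos : ∀ τ : ℝ, Real.smoothTransition τ = 0 ∨
        (0 < s * Real.smoothTransition τ ∧ s * Real.smoothTransition τ ≤ s) := by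
      intro τ
      rcases (Real.smoothTransition.nonneg τ).eq_or_lt with h | h
      · exact Or.inl h.symm
      · exact Or.inr ⟨mul_pos hs_pos h, by
          nlinarith [Real.smoothTransition.le_one τ]⟩
    refine ⟨fun τ x => MM (H t) (s * Real.smoothTransition τ) x, C, hCc, hδU, ?_, ?_, ?_, ?_, ?_⟩
    · have a1 : ContDiff ℝ ∞ fun p : ℝ × E n => s * Real.smoothTransition p.1 :=
        contDiff_const.mul (Real.smoothTransition.contDiff.comp contDiff_fst)
      exact (MM_smooth hst).comp (a1.prodMk contDiff_snd)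
    · intro τ x
      show LD n (MM (H t) (s * Real.smoothTransition τ)) x
      rcases hpos τ with h | ⟨h, h'⟩
      · rw [h, mul_zero, MM_zero]
        exact hLt x
      · rw [MM_eq h.ne']
        exact ld_MS (hcont t) h (hnear t x _ h (h'.trans_lt hsρ))
    · intro τ x hx
      show MM (H t) (s * Real.smoothTransition τ) x = x
      rcases hpos τ with h | ⟨h, h'⟩
      · rw [h, mul_zero, MM_zero]
        refine hid t x fun hxK => ?_
        have := hout x hx 0 (by simp [hs_pos.le])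
        rw [add_zero] at this
        exact this hxK
      · rw [MM_eq h.ne']
        exact hMSid _ (hid t) _ h h' x hx
    · intro τ hτ
      funext x
      show MM (H t) (s * Real.smoothTransition τ) x = _
      rw [Real.smoothTransition.zero_of_nonpos hτ, mul_zero, MM_zero]
    · intro τ hτ
      funext x
      show MM (H t) (s * Real.smoothTransition τ) x = _
      rw [Real.smoothTransition.one_of_one_le hτ, mul_one, MM_eq hs_pos.ne']
  -- short times
  set P : ℝ × E n → (E n →L[ℝ] E n) := fun p => fderiv ℝ (MS s (H p.1)) p.2 with hP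
  have hPc : Continuous P := cont_fderiv_MS hH hs_pos
  have hsm : ∀ t, ContDiff ℝ ∞ (MS s (H t)) := fun t => MS_smooth (hcont t).locallyIntegrable hs_pos
  have hLs : ∀ t x, LD n (MS s (H t)) x := fun t x =>
    ld_MS (hcont t) hs_pos (hnear t x _ hs_pos hsρ)
  set V : Set ((ℝ × ℝ) × (ℝ × E n)) := {q | (1 - q.2.1) • P (q.1.1, q.2.2) +
    q.2.1 • P (q.1.2, q.2.2) ∈ range ((↑) : (E n ≃L[ℝ] E n) → E n →L[ℝ] E n)} with hV
  have hVo : IsOpen V := by
    have h1 : Continuous fun q : (ℝ × ℝ) × (ℝ × E n) => (1 - q.2.1) • P (q.1.1, q.2.2) +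
        q.2.1 • P (q.1.2, q.2.2) := by fun_prop
    exact (ContinuousLinearEquiv.isOpen (𝕜 := ℝ) (E := E n) (F := E n)).preimage h1
  set Q : Set ((ℝ × ℝ) × (ℝ × E n)) := (fun p : ℝ × (ℝ × E n) => ((p.1, p.1), p.2)) ''
    (Icc (0:ℝ) 1 ×ˢ (Icc (0:ℝ) 1 ×ˢ C)) with hQ
  have hQc : IsCompact Q := (isCompact_Icc.prod (isCompact_Icc.prod hCc)).image (by fun_prop)
  have hQV : Q ⊆ V := by
    rintro _ ⟨⟨t, τ, x⟩, -, rfl⟩
    obtain ⟨A, hA⟩ := (hLs t x).exists_equiv
    have e : ∀ B : E n →L[ℝ] E n, (1 - τ) • B + τ • B = B := fun B => by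
      ext1 v
      show (1 - τ) • B v + τ • B v = B v
      rw [← add_smul, sub_add_cancel, one_smul]
    exact ⟨A, hA.fderiv.symm.trans (e (P (t, x))).symm⟩
  obtain ⟨η, hη, hηV⟩ := hQc.exists_thickening_subset_open hVo hQV
  have key2 : ∀ t t', t ∈ Icc (0:ℝ) 1 → |t' - t| < η → Iso U (MS s (H t)) (MS s (H t')) := by
    intro t t' ht htt
    refine Iso.straight hCc hδU (hsm t) (hsm t') (hMSid _ (hid t) s hs_pos le_rfl)
      (hMSid _ (hid t') s hs_pos le_rfl) ?_
    intro τ hτ0 hτ1 x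
    have hd1 : ∀ y, HasFDerivAt (MS s (H t)) (P (t, y)) y := fun y =>
      ((hsm t).differentiable (by simp) y).hasFDerivAt
    have hd2 : ∀ y, HasFDerivAt (MS s (H t')) (P (t', y)) y := fun y =>
      ((hsm t').differentiable (by simp) y).hasFDerivAt
    by_cases hx : x ∈ C
    · have hmem : ((t, t'), (τ, x)) ∈ V := by
        apply hηV
        rw [mem_thickening_iff]
        refine ⟨((t, t), (τ, x)), ⟨(t, τ, x), ⟨ht, ⟨hτ0, hτ1⟩, hx⟩, rfl⟩, ?_⟩
        rw [Prod.dist_eq, Prod.dist_eq, dist_self, dist_self, max_eq_right dist_nonneg,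
          max_eq_left dist_nonneg, Real.dist_eq]
        exact htt
      obtain ⟨A, hA⟩ := hmem
      have hA' : (A : E n →L[ℝ] E n) = (1 - τ) • P (t, x) + τ • P (t', x) := hA
      have hsmt : ContDiff ℝ ∞ fun x => (1 - τ) • MS s (H t) x + τ • MS s (H t') x :=
        ((hsm t).const_smul _).add ((hsm t').const_smul _)
      refine LD_of_contDiffAt (Eventually.of_forall fun y => hsmt.contDiffAt) A ?_
      rw [hA']
      exact ((hd1 x).const_smul (1 - τ)).add ((hd2 x).const_smul τ)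
    · have hev : (fun x => (1 - τ) • MS s (H t) x + τ • MS s (H t') x) =ᶠ[𝓝 x] fun y => y := by
        filter_upwards [hCc.isClosed.isOpen_compl.mem_nhds hx] with y hy
        rw [hMSid _ (hid t) s hs_pos le_rfl y hy, hMSid _ (hid t') s hs_pos le_rfl y hy,
          ← add_smul, sub_add_cancel, one_smul]
      exact (LD.id x).congr hev
  -- chain
  obtain ⟨N, hN⟩ := exists_nat_gt (1 / η)
  have hN0 : (0:ℝ) < N := (by positivity : (0:ℝ) < 1 / η).trans hN
  have hNη : 1 / (N:ℝ) < η := by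
    rw [div_lt_iff₀ hN0]
    rw [div_lt_iff₀ hη] at hN
    linarith
  have key3 : ∀ k : ℕ, k ≤ N → Iso U (H 0) (MS s (H (k / N))) := by
    intro k
    induction k with
    | zero =>
      intro _
      rw [Nat.cast_zero, zero_div]
      exact key1 0 hs0 hL0
    | succ k ih =>
      intro hk
      refine (ih (by omega)).trans (key2 _ _ ⟨by positivity, ?_⟩ ?_)
      · rw [div_le_one hN0]
        exact_mod_cast (by omega : k ≤ N)
      · have : ((k + 1 : ℕ) : ℝ) / N - k / N = 1 / N := by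
          push_cast
          ring
        rw [this, abs_of_pos (by positivity)]
        exact hNη
  have h1 := key3 N le_rfl
  rw [div_self hN0.ne'] at h1
  exact h1.trans (key1 1 hs1 hL1).symm

end Pool.Agent.Q235.NL
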