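import Pool.Agent.Q235.NL.Iso

/-!
# Topological isotopies which are close to linear at all small scales
-/

set_option autoImplicit false

open Set Filter Topology Metric Function MeasureTheory
open scoped Manifold ContDiff

noncomputable section

namespace Pool.Agent.Q235.NL

open Pool.Agent.Y522

variable {n : ℕ}

/-- `H` is close to linear at all small scales near `x`, at all times near `t` -/
def NearLinT (n : ℕ) (ε : ℝ) (H : ℝ → E n → E n) (ρ t : ℝ) (x : E n) : Prop :=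
  ∀ s ∈ Icc (0:ℝ) 1, |s - t| < ρ → ∀ z, ‖z - x‖ < ρ → ∀ r, 0 < r → r < ρ →
    ∃ L : E n →L[ℝ] E n, ∀ w, ‖w‖ ≤ r → ‖L (H s (z + w) - H s z) - w‖ ≤ ε * r

theorem NearLinT.mono {ε : ℝ} {H : ℝ → E n → E n} {ρ ρ' t t' : ℝ} {x x' : E n}
    (h : NearLinT n ε H ρ t x) (ht : |t' - t| ≤ ρ - ρ') (hx : ‖x' - x‖ ≤ ρ - ρ') :
    NearLinT n ε H ρ' t' x' := by
  intro s hs hst z hz r hr hr'
  have h1 : 0 ≤ |t' - t| := abs_nonneg _
  refine h s hs ?_ z ?_ r hr (by linarith)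
  · have := abs_sub_le s t' t
    linarith
  · have : z - x = (z - x') + (x' - x) := by abel
    rw [this]
    have := norm_add_le (z - x') (x' - x)
    linarith

theorem unifT {ε : ℝ} {H : ℝ → E n → E n} {K : Set (E n)} (hK : IsCompact K)
    (h : ∀ t ∈ Icc (0:ℝ) 1, ∀ x ∈ K, ∃ ρ, 0 < ρ ∧ NearLinT n ε H ρ t x) :
    ∃ ρ, 0 < ρ ∧ ∀ t ∈ Icc (0:ℝ) 1, ∀ x ∈ K, NearLinT n ε H ρ t x := by
  have hc : IsCompact (Icc (0:ℝ) 1 ×ˢ K) := isCompact_Icc.prod hK
  have key : ∃ ρ, 0 < ρ ∧ ∀ p ∈ Icc (0:ℝ) 1 ×ˢ K, NearLinT n ε H ρ p.1 p.2 := by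
    refine hc.induction_on (p := fun S => ∃ ρ : ℝ, 0 < ρ ∧ ∀ p ∈ S, NearLinT n ε H ρ p.1 p.2)
      ⟨1, one_pos, fun p hp => absurd hp (notMem_empty p)⟩ ?_ ?_ ?_
    · rintro s t hst ⟨ρ, hρ, h⟩
      exact ⟨ρ, hρ, fun x hx => h x (hst hx)⟩
    · rintro s t ⟨ρ, hρ, h⟩ ⟨ρ', hρ', h'⟩
      refine ⟨min ρ ρ', lt_min hρ hρ', fun p hp => ?_⟩
      rcases hp with hp | hp
      · exact (h p hp).mono (by simp) (by simp)
      · exact (h' p hp).mono (by simp) (by simp)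
    · rintro ⟨t, x⟩ ⟨ht, hx⟩
      obtain ⟨ρ, hρ, hP⟩ := h t ht x hx
      refine ⟨_, mem_nhdsWithin_of_mem_nhds (Metric.ball_mem_nhds (t, x)
        (by linarith : (0:ℝ) < ρ / 2)), ρ / 2, by linarith, ?_⟩
      rintro ⟨t', x'⟩ hp
      rw [mem_ball, Prod.dist_eq, max_lt_iff] at hp
      obtain ⟨h1, h2⟩ := hp
      rw [Real.dist_eq] at h1
      rw [dist_eq_norm] at h2
      have h1' : |t' - t| < ρ / 2 := h1
      have h2' : ‖x' - x‖ < ρ / 2 := h2
      exact hP.mono (by linarith) (by linarith)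
  obtain ⟨ρ, hρ, hP⟩ := key
  exact ⟨ρ, hρ, fun t ht x hx => hP (t, x) ⟨ht, hx⟩⟩

/-- **Smoothing of topological isotopies.** -/
theorem iso_path (n : ℕ) {H : ℝ → E n → E n} (hH : ContinuousOn (uncurry H) (Icc (0:ℝ) 1 ×ˢ univ))
    {K U : Set (E n)} (hK : IsCompact K) (hU : IsOpen U) (hKU : K ⊆ U)
    (hid : ∀ t ∈ Icc (0:ℝ) 1, ∀ x, x ∉ K → H t x = x)
    (hnear : ∀ t ∈ Icc (0:ℝ) 1, ∀ x ∈ K, ∃ ρ, 0 < ρ ∧ NearLinT n (eps n) H ρ t x)
    (hs0 : ContDiff ℝ ∞ (H 0)) (hL0 : ∀ x, LD n (H 0) x)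
    (hs1 : ContDiff ℝ ∞ (H 1)) (hL1 : ∀ x, LD n (H 1) x) : Iso U (H 0) (H 1) := by
  obtain ⟨ρ, hρ, hP⟩ := unifT hK hnear
  set pr : ℝ → ℝ := fun t => (projIcc (0:ℝ) 1 zero_le_one t : ℝ) with hpr
  have hprc : Continuous pr := continuous_subtype_val.comp continuous_projIcc
  have hprm : ∀ t, pr t ∈ Icc (0:ℝ) 1 := fun t => (projIcc (0:ℝ) 1 zero_le_one t).2
  have hpr0 : pr 0 = 0 := by simp [hpr]
  have hpr1 : pr 1 = 1 := by simp [hpr]
  have hc : Continuous (uncurry fun t => H (pr t)) := by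
    have h1 : Continuous fun p : ℝ × E n => uncurry H (pr p.1, p.2) :=
      hH.comp_continuous ((hprc.comp continuous_fst).prodMk continuous_snd)
        fun p => ⟨hprm _, mem_univ _⟩
    exact h1
  have key := iso_of_near (H := fun t => H (pr t)) hc hK hU hKU (fun t x hx => hid _ (hprm t) x hx)
    hρ ?_ (by rwa [hpr0]) (by rwa [hpr0]) (by rwa [hpr1]) (by rwa [hpr1])
  · simpa only [hpr0, hpr1] using key
  · intro t z r hr hr'
    by_cases hz : ∃ x ∈ K, ‖z - x‖ < ρ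
    · obtain ⟨x, hx, hzx⟩ := hz
      exact hP (pr t) (hprm t) x hx (pr t) (hprm t) (by simpa using hρ) z hzx r hr hr'
    · push Not at hz
      refine ⟨ContinuousLinearMap.id ℝ (E n), fun w hw => ?_⟩
      have h1 : z ∉ K := fun h => by
        have := hz z h
        rw [sub_self, norm_zero] at this
        linarith
      have h2 : z + w ∉ K := fun h => by
        have := hz (z + w) h
        rw [sub_add_cancel_left, norm_neg] at this
        linarith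
      rw [hid _ (hprm t) z h1, hid _ (hprm t) (z + w) h2]
      simp only [ContinuousLinearMap.id_apply, add_sub_cancel_left, sub_self, norm_zero]
      exact mul_nonneg eps_pos.le hr.le

end Pool.Agent.Q235.NL
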