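import Pool.Agent.Q235.NL.Smooth
import Pool.Agent.Q235.NL.Bij

/-!
# Homeomorphisms of closed manifolds which are close to linear at all small scales
-/

set_option autoImplicit false

open Set Filter Topology Metric Function MeasureTheory
open scoped Manifold ContDiff

noncomputable section

namespace Pool.Agent.Q235.NL

open Pool.Agent.Y522

section defs

variable (n : ℕ) {M N : Type} [TopologicalSpace M] [ChartedSpace (E n) M]
  [TopologicalSpace N] [ChartedSpace (E n) N]

/-- `f` is close to linear, in suitable coordinates, near the part `Z` of the bad set -/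
def Good (ε : ℝ) (f : M → N) (Z : Set M) : Prop :=
  ∃ (A : E n → M) (ψ : N → E n) (O : Set M), IsOpen O ∧ Z ⊆ O ∧ O ⊆ range A ∧ Injective A ∧
    (∀ z, LD n A z) ∧ InjOn ψ (f '' O) ∧ (∀ x ∈ O, LD n ψ (f x)) ∧
    ∀ z, A z ∈ Z → ¬ LD n f (A z) → NearLin n ε (fun z => ψ (f (A z))) z

variable {n}

theorem Good.congr {ε : ℝ} {f f' : M → N} {Z P : Set M} (h : Good n ε f Z) (hP : IsOpen P)
    (hZP : Z ⊆ P) (he : ∀ x ∈ P, f' x = f x) : Good n ε f' Z := by
  obtain ⟨A, ψ, O, hO, hZO, hOA, hA, hAL, hψ, hψL, hN⟩ := h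
  have him : f' '' (O ∩ P) ⊆ f '' O := by
    rintro _ ⟨x, hx, rfl⟩
    exact ⟨x, hx.1, (he x hx.2).symm⟩
  refine ⟨A, ψ, O ∩ P, hO.inter hP, subset_inter hZO hZP, inter_subset_left.trans hOA, hA, hAL,
    hψ.mono him, ?_, ?_⟩
  · rintro x ⟨hx1, hx2⟩
    rw [he x hx2]
    exact hψL x hx1
  · intro z hz hzn
    have hev : ∀ᶠ x in 𝓝 (A z), f' x = f x := by
      filter_upwards [hP.mem_nhds (hZP hz)] with x hx
      exact he x hx
    refine (hN z hz fun h => hzn (h.congr hev)).congr ?_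
    have hAc : ContinuousAt A z := (hAL z).continuousAt
    filter_upwards [hAc.eventually hev] with y hy
    rw [hy]

end defs

section main

variable {n : ℕ} {M N : Type} [TopologicalSpace M] [ChartedSpace (E n) M]
  [TopologicalSpace N] [ChartedSpace (E n) N]

theorem isOpenEmbedding_of_LD {A : E n → M} (hA : Injective A) (hAL : ∀ z, LD n A z) :
    IsOpenEmbedding A := by
  refine IsOpenEmbedding.of_continuous_injective_isOpenMap
    (continuous_iff_continuousAt.2 fun z => (hAL z).continuousAt) hA ?_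
  intro U hU
  exact isOpen_image_of_LD hU fun x _ => hAL x

theorem not_compact_E (hn : 0 < n) : ¬ IsCompact (univ : Set (E n)) := by
  intro h
  obtain ⟨r, hr⟩ := h.isBounded.subset_closedBall (0 : E n)
  have h5 : EuclideanSpace.single (⟨0, hn⟩ : Fin n) (|r| + 1 : ℝ) ∈ closedBall (0 : E n) r :=
    hr (mem_univ _)
  rw [mem_closedBall_zero_iff, PiLp.norm_single, Real.norm_eq_abs,
    abs_of_pos (by positivity)] at h5
  have := le_abs_self r
  linarith

/-- smoothing near one piece of the bad set -/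
theorem piece [T2Space M] [CompactSpace M] [T2Space N] [ConnectedSpace N] (hn : 0 < n)
    (f : M ≃ₜ N) (Z O' : Set M) (hZ : IsCompact Z) (hO' : IsOpen O') (hZO' : Z ⊆ O')
    (hLD : ∀ x ∈ O', x ∉ Z → LD n f x) (hG : Good n (eps n) f Z) :
    ∃ (f' : M ≃ₜ N) (C : Set M), IsCompact C ∧ C ⊆ O' ∧ (∀ x, x ∉ C → f' x = f x) ∧
      ∀ x ∈ O', LD n f' x := by
  classical
  obtain ⟨A, ψ, O, hO, hZO, hOA, hA, hAL, hψ, hψL, hN⟩ := hG
  have hAe := isOpenEmbedding_of_LD hA hAL
  set Ω : Set M := O ∩ O' with hΩ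
  have hΩo : IsOpen Ω := hO.inter hO'
  have hΩA : Ω ⊆ range A := inter_subset_left.trans hOA
  set Ot : Set (E n) := A ⁻¹' Ω with hOt
  have hOto : IsOpen Ot := hΩo.preimage hAe.continuous
  set F : E n → E n := fun z => ψ (f (A z)) with hF
  set Kt : Set (E n) := A ⁻¹' Z with hKt
  have hKtc : IsCompact Kt :=
    (hAe.isInducing.isCompact_preimage_iff (hZO.trans hOA)).mpr hZ
  have hKO : Kt ⊆ Ot := preimage_mono (subset_inter hZO hZO')
  have hFc : ContinuousOn F Ot := by
    intro z hz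
    have h1 : ContinuousAt ψ (f (A z)) := (hψL _ hz.1).continuousAt
    have h2 : ContinuousAt (fun z => f (A z)) z := (f.continuous.comp hAe.continuous).continuousAt
    exact (ContinuousAt.comp (f := fun z => f (A z)) h1 h2).continuousWithinAt
  have hFL : ∀ z ∈ Ot, LD n f (A z) → LD n F z := fun z hz h =>
    LD.comp_fun (g := ψ) (f := fun z => f (A z)) (hψL _ hz.1)
      (LD.comp_fun (g := f) (f := A) h (hAL z))
  obtain ⟨Ct, hCt, hCtO, hsm⟩ := smoothing n F Ot hOto hFc Kt hKtc hKO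
    (fun z hz hzK => hFL z hz (hLD _ hz.2 hzK))
    (fun z hz hzn => hN z hz fun h => hzn (hFL z (hKO hz) h))
  -- the image
  have hfo : IsOpen (f '' Ω) := f.isOpenMap Ω hΩo
  have hψi : InjOn ψ (f '' Ω) := hψ.mono (image_mono inter_subset_left)
  have hψl : ∀ y ∈ f '' Ω, LD n ψ y := by
    rintro _ ⟨x, hx, rfl⟩
    exact hψL x hx.1
  set V : Set (E n) := ψ '' (f '' Ω) with hV
  have hVo : IsOpen V := isOpen_image_of_LD hfo hψl
  have hFV : ∀ z ∈ Ot, F z ∈ V := fun z hz => ⟨_, ⟨_, hz, rfl⟩, rfl⟩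
  obtain ⟨η, hη, hηV⟩ := (hCt.image_of_continuousOn (hFc.mono hCtO)).exists_cthickening_subset_open
    hVo (by
      rintro _ ⟨z, hz, rfl⟩
      exact hFV z (hCtO hz))
  obtain ⟨F', hF'C, hF'L, hF'η⟩ := hsm η hη
  have hF'V : ∀ z ∈ Ot, F' z ∈ V := by
    intro z hz
    by_cases hzC : z ∈ Ct
    · apply hηV
      refine mem_cthickening_of_dist_le _ (F z) _ _ (mem_image_of_mem _ hzC) ?_
      rw [dist_eq_norm]
      exact hF'η z
    · rw [hF'C z hzC]
      exact hFV z hz
  -- the inverses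
  have hne : Nonempty M ∨ IsEmpty M := (isEmpty_or_nonempty M).symm
  haveI : Nonempty N := inferInstance
  haveI : Nonempty M := ⟨f.symm (Classical.arbitrary N)⟩
  set θ : E n → N := invFunOn ψ (f '' Ω) with hθ
  have hθψ : ∀ y ∈ f '' Ω, θ (ψ y) = y := fun y hy => hψi.leftInvOn_invFunOn hy
  have hθL : ∀ v ∈ V, LD n θ v := by
    rintro _ ⟨y, hy, rfl⟩
    exact LD.inverse hfo hψl hθψ hy
  have hθm : ∀ v ∈ V, θ v ∈ f '' Ω := by
    rintro _ ⟨y, hy, rfl⟩
    rw [hθψ y hy]
    exact hy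
  set a : M → E n := invFun A with ha
  have haA : ∀ z, a (A z) = z := fun z => leftInverse_invFun hA z
  have haL : ∀ z, LD n a (A z) := fun z =>
    LD.inverse isOpen_univ (fun x _ => hAL x) (fun x _ => haA x) (mem_univ z)
  have haΩ : ∀ x ∈ Ω, a x ∈ Ot ∧ A (a x) = x := by
    intro x hx
    obtain ⟨z, rfl⟩ := hΩA hx
    rw [haA]
    exact ⟨hx, rfl⟩
  set g : M → N := fun x => if x ∈ Ω then θ (F' (a x)) else f x with hg
  set C : Set M := A '' Ct with hC
  have hCc : IsCompact C := hCt.image hAe.continuous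
  have hCΩ : C ⊆ Ω := by
    rintro _ ⟨z, hz, rfl⟩
    exact hCtO hz
  have hgC : ∀ x, x ∉ C → g x = f x := by
    intro x hx
    by_cases hxΩ : x ∈ Ω
    · simp only [hg, if_pos hxΩ]
      have h1 : a x ∉ Ct := fun h => hx ⟨a x, h, (haΩ x hxΩ).2⟩
      rw [hF'C _ h1]
      simp only [hF, (haΩ x hxΩ).2]
      exact hθψ _ ⟨x, hxΩ, rfl⟩
    · simp only [hg, if_neg hxΩ]
  have hgev : ∀ x, x ∉ C → ∀ᶠ y in 𝓝 x, g y = f y := by
    intro x hx
    filter_upwards [hCc.isClosed.isOpen_compl.mem_nhds hx] with y hy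
    exact hgC y hy
  have hgL : ∀ x ∈ Ω, LD n g x := by
    intro x hx
    have h1 : LD n (fun x => θ (F' (a x))) x := by
      refine LD.comp_fun (g := θ) (f := fun x => F' (a x)) (hθL _ (hF'V _ (haΩ x hx).1)) ?_
      refine LD.comp_fun (g := F') (f := a) (hF'L _ (haΩ x hx).1) ?_
      have := haL (a x)
      rwa [(haΩ x hx).2] at this
    refine h1.congr ?_
    filter_upwards [hΩo.mem_nhds hx] with y hy
    simp only [hg, if_pos hy]
  have hgmem : ∀ x ∈ Ω, g x ∈ f '' Ω := by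
    intro x hx
    simp only [hg, if_pos hx]
    exact hθm _ (hF'V _ (haΩ x hx).1)
  have hgc : Continuous g := by
    rw [continuous_iff_continuousAt]
    intro x
    by_cases hx : x ∈ Ω
    · exact (hgL x hx).continuousAt
    · have h1 := hgev x fun h => hx (hCΩ h)
      exact f.continuous.continuousAt.congr (h1.mono fun y hy => hy.symm)
  -- a point outside
  have hex : ∃ x₀ : M, x₀ ∉ Ω := by
    by_contra hcon
    push Not at hcon
    have h1 : Ω = univ := eq_univ_of_forall hcon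
    have h2 : range A = univ := by
      rw [h1] at hΩA
      exact univ_subset_iff.1 hΩA
    have h3 : IsCompact (A ⁻¹' (univ : Set M)) :=
      (hAe.isInducing.isCompact_preimage_iff (by rw [h2])).mpr isCompact_univ
    rw [preimage_univ] at h3
    exact not_compact_E hn h3
  obtain ⟨x₀, hx₀⟩ := hex
  have hbij : Bijective g := by
    refine bij_of_local hgc ?_ ?_ (y := f x₀) (x₀ := x₀)
      (hgC x₀ fun h => hx₀ (hCΩ h)) ?_
    · intro x s hs
      by_cases hx : x ∈ Ω
      · exact (hgL x hx).image_mem_nhds hs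
      · have hxC : x ∉ C := fun h => hx (hCΩ h)
        have h1 : f '' (s ∩ {y | g y = f y}) ∈ 𝓝 (f x) := by
          rw [f.isOpenEmbedding.image_mem_nhds]
          exact Filter.inter_mem hs (hgev x hxC)
        rw [hgC x hxC]
        refine mem_of_superset h1 ?_
        rintro _ ⟨y, hy, rfl⟩
        exact ⟨y, hy.1, hy.2⟩
    · intro x
      by_cases hx : x ∈ Ω
      · exact (hgL x hx).eventually_injOn
      · have hxC : x ∉ C := fun h => hx (hCΩ h)
        refine ⟨_, hgev x hxC, ?_⟩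
        intro y hy z hz hyz
        have hy' : g y = f y := hy
        have hz' : g z = f z := hz
        rw [hy', hz'] at hyz
        exact f.injective hyz
    · intro x hx
      by_cases hxΩ : x ∈ Ω
      · have h1 := hgmem x hxΩ
        rw [hx] at h1
        obtain ⟨w, hw, hwx⟩ := h1
        exact absurd (f.injective hwx ▸ hw) hx₀
      · rw [hgC x fun h => hxΩ (hCΩ h)] at hx
        exact f.injective hx
  let e : M ≃ N := Equiv.ofBijective g hbij
  have hec : Continuous e := hgc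
  refine ⟨hec.homeoOfEquivCompactToT2, C, hCc, hCΩ.trans inter_subset_right, hgC, ?_⟩
  intro x hx
  show LD n g x
  by_cases hxΩ : x ∈ Ω
  · exact hgL x hxΩ
  · have hxC : x ∉ C := fun h => hxΩ (hCΩ h)
    exact (hLD x hx fun h => hxΩ ⟨hZO h, hx⟩).congr (hgev x hxC)

/-- smoothing near finitely many pieces -/
theorem many [T2Space M] [CompactSpace M] [T2Space N] [ConnectedSpace N] (hn : 0 < n) (k : ℕ) :
    ∀ (f : M ≃ₜ N) (Z : Fin k → Set M) (U : Set M), IsOpen U → (∀ i, Z i ⊆ U) →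
      (∀ i, IsCompact (Z i)) →
      (∀ i j, i ≠ j → Disjoint (Z i) (Z j)) → (∀ i, Good n (eps n) f (Z i)) →
      (∀ x, ¬ LD n f x → ∃ i, x ∈ Z i) →
      ∃ f' : M ≃ₜ N, (∀ x, LD n f' x) ∧ ∀ x, x ∉ U → f' x = f x := by
  induction k with
  | zero =>
    intro f Z U _ _ _ _ _ h
    refine ⟨f, fun x => ?_, fun _ _ => rfl⟩
    by_contra hx
    obtain ⟨i, -⟩ := h x hx
    exact i.elim0
  | succ k ih =>
    intro f Z U hU hZU hZ hd hG hB
    set Zl : Set M := Z (Fin.last k) with hZl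
    set R : Set M := ⋃ i : Fin k, Z i.castSucc with hR
    have hRc : IsCompact R := isCompact_iUnion fun i => hZ _
    have hdis : Disjoint Zl R := by
      rw [hR, disjoint_iUnion_right]
      intro i
      exact hd _ _ (Fin.castSucc_lt_last i).ne'
    obtain ⟨O, O', hO, hO', hZO, hRO, hOO⟩ := SeparatedNhds.of_isCompact_isCompact (hZ _) hRc hdis
    obtain ⟨f', C, hC, hCO', hfC, hfL⟩ := piece hn f Zl (O ∩ U) (hZ _) (hO.inter hU)
      (subset_inter hZO (hZU _)) (by
      rintro x ⟨hx, -⟩ hxZ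
      by_contra hxn
      obtain ⟨i, hi⟩ := hB x hxn
      rcases Fin.eq_castSucc_or_eq_last i with ⟨j, rfl⟩ | rfl
      · exact (disjoint_left.1 hOO hx) (hRO (mem_iUnion.2 ⟨j, hi⟩))
      · exact hxZ hi) (hG _)
    have hCO : C ⊆ O := hCO'.trans inter_subset_left
    have hCU : C ⊆ U := hCO'.trans inter_subset_right
    have hG' : ∀ i : Fin k, Good n (eps n) f' (Z i.castSucc) := by
      intro i
      refine (hG _).congr hO' ((subset_iUnion (fun i : Fin k => Z i.castSucc) i).trans hRO) ?_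
      intro x hx
      exact hfC x fun h => (disjoint_left.1 hOO (hCO h)) hx
    have hB' : ∀ x, ¬ LD n f' x → ∃ i : Fin k, x ∈ Z i.castSucc := by
      intro x hx
      have hxO : x ∉ O ∩ U := fun h => hx (hfL x h)
      have hev : ∀ᶠ y in 𝓝 x, f' y = f y := by
        filter_upwards [hC.isClosed.isOpen_compl.mem_nhds fun h => hxO (hCO' h)] with y hy
        exact hfC y hy
      have hxf : ¬ LD n f x := fun h => hx (h.congr hev)
      obtain ⟨i, hi⟩ := hB x hxf
      rcases Fin.eq_castSucc_or_eq_last i with ⟨j, rfl⟩ | rfl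
      · exact ⟨j, hi⟩
      · exact absurd ⟨hZO hi, hZU _ hi⟩ hxO
    obtain ⟨f'', hf''L, hf''U⟩ := ih f' (fun i => Z i.castSucc) U hU (fun i => hZU _) (fun i => hZ _)
      (fun i j hij => hd _ _ fun h => hij (Fin.castSucc_injective k h)) hG' hB'
    refine ⟨f'', hf''L, fun x hx => ?_⟩
    rw [hf''U x hx, hfC x fun h => hx (hCU h)]

theorem isOpen_LD {f : M → N} : IsOpen {x | LD n f x} :=
  isOpen_iff_mem_nhds.2 fun _ hy => LD.eventually hy

theorem isOpen_nearLin {ε : ℝ} {F : E n → E n} : IsOpen {x | NearLin n ε F x} := by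
  rw [isOpen_iff_mem_nhds]
  rintro x ⟨ρ, hρ, h⟩
  filter_upwards [Metric.ball_mem_nhds x (by linarith : (0:ℝ) < ρ / 2)] with y hy
  rw [mem_ball, dist_eq_norm] at hy
  refine ⟨ρ / 2, by linarith, fun z hz r hr hr' => h z ?_ r hr (by linarith)⟩
  have h1 : z - x = (z - y) + (y - x) := by abel
  rw [h1]
  have := norm_add_le (z - y) (y - x)
  linarith

/-- the pieces of the bad set from its connected components -/
theorem exists_pieces [T2Space M] [CompactSpace M] (f : M → N) (ε : ℝ)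
    (h : ∀ x, ¬ LD n f x → ∃ (A : E n → M) (ψ : N → E n), Injective A ∧ (∀ z, LD n A z) ∧
      connectedComponentIn {x | ¬ LD n f x} x ⊆ range A ∧ InjOn ψ (f '' range A) ∧
      (∀ z, LD n ψ (f (A z))) ∧ ∀ z, A z ∈ connectedComponentIn {x | ¬ LD n f x} x →
        NearLin n ε (fun z => ψ (f (A z))) z) :
    ∃ (k : ℕ) (Z : Fin k → Set M), (∀ i, Z i ⊆ {x | ¬ LD n f x}) ∧ (∀ i, IsCompact (Z i)) ∧
      (∀ i j, i ≠ j → Disjoint (Z i) (Z j)) ∧ (∀ i, Good n ε f (Z i)) ∧
      ∀ x, ¬ LD n f x → ∃ i, x ∈ Z i := by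
  classical
  set B : Set M := {x | ¬ LD n f x} with hB
  have hBc : IsCompact B := by
    have h1 : IsClosed B := by
      have : B = {x | LD n f x}ᶜ := rfl
      rw [this]
      exact isOpen_LD.isClosed_compl
    exact h1.isCompact
  haveI : CompactSpace B := isCompact_iff_compactSpace.1 hBc
  -- clopen pieces
  have hcl : ∀ x : B, ∃ S : Set B, IsClopen S ∧ x ∈ S ∧ ∀ Z : Set M, Z ⊆ Subtype.val '' S →
      Good n ε f Z := by
    intro x
    obtain ⟨A, ψ, hA, hAL, hcomp, hψ, hψL, hN⟩ := h x x.2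
    have hAe := isOpenEmbedding_of_LD hA hAL
    set P : Set (E n) := {z | LD n f (A z)} ∪ {z | NearLin n ε (fun z => ψ (f (A z))) z} with hP
    have hPo : IsOpen P := (isOpen_LD.preimage hAe.continuous).union isOpen_nearLin
    set W : Set M := A '' P with hW
    have hWo : IsOpen W := hAe.isOpenMap P hPo
    have hcW : connectedComponentIn B x ⊆ W := by
      intro y hy
      obtain ⟨z, rfl⟩ := hcomp hy
      exact ⟨z, Or.inr (hN z hy), rfl⟩
    have hcc : connectedComponent x = ⋂ s : {s : Set B // IsClopen s ∧ x ∈ s}, (s : Set B) :=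
      connectedComponent_eq_iInter_isClopen x
    haveI : Nonempty {s : Set B // IsClopen s ∧ x ∈ s} := ⟨⟨univ, isClopen_univ, mem_univ _⟩⟩
    obtain ⟨S, hS⟩ := exists_subset_nhds_of_compactSpace
      (V := fun s : {s : Set B // IsClopen s ∧ x ∈ s} => (s : Set B)) (U := Subtype.val ⁻¹' W)
      (by
        rintro ⟨s, hs, hxs⟩ ⟨t, ht, hxt⟩
        exact ⟨⟨s ∩ t, hs.inter ht, hxs, hxt⟩, inter_subset_left, inter_subset_right⟩)
      (fun s => s.2.1.isClosed)
      (by
        intro y hy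
        rw [← hcc] at hy
        refine (hWo.preimage continuous_subtype_val).mem_nhds ?_
        apply hcW
        rw [connectedComponentIn_eq_image x.2]
        exact ⟨y, hy, rfl⟩)
    refine ⟨S, S.2.1, S.2.2, fun Z hZ => ?_⟩
    have hZW : Z ⊆ W := by
      refine hZ.trans ?_
      rintro _ ⟨y, hy, rfl⟩
      exact hS hy
    refine ⟨A, ψ, W, hWo, hZW, image_subset_range _ _, hA, hAL,
      hψ.mono (image_mono (image_subset_range _ _)), ?_, ?_⟩
    · rintro _ ⟨z, _, rfl⟩
      exact hψL z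
    · intro z hz hzn
      obtain ⟨z', hz', hzz⟩ := hZW hz
      rw [hA hzz] at hz'
      exact hz'.resolve_left hzn
  choose S hSc hxS hSG using hcl
  obtain ⟨t, ht⟩ := isCompact_univ.elim_nhds_subcover (X := B) S
    (fun x _ => (hSc x).isOpen.mem_nhds (hxS x))
  set k := t.card
  set T : Fin k → Set B := fun i => S (t.equivFin.symm i) with hT
  have hTc : ∀ i, IsClopen (T i) := fun i => hSc _
  set T' : Fin k → Set B := fun i => T i \ ⋃ j : Fin k, ⋃ (_ : j < i), T j with hT'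
  have hT'c : ∀ i, IsClosed (T' i) := by
    intro i
    refine (hTc i).isClosed.sdiff (isOpen_iUnion fun j => isOpen_iUnion fun _ => (hTc j).isOpen)
  refine ⟨k, fun i => Subtype.val '' T' i, ?_,
    fun i => (hT'c i).isCompact.image continuous_subtype_val, ?_, ?_, ?_⟩
  · rintro i _ ⟨y, _, rfl⟩
    exact y.2
  · have key : ∀ i j, i < j → Disjoint (Subtype.val '' T' i) (Subtype.val '' T' j) := by
      intro i j hij
      rw [disjoint_left]
      rintro _ ⟨y, hy, rfl⟩ ⟨y', hy', hyy⟩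
      rw [Subtype.val_injective hyy] at hy'
      exact hy'.2 (mem_iUnion.2 ⟨i, mem_iUnion.2 ⟨hij, hy.1⟩⟩)
    intro i j hij
    rcases lt_or_gt_of_ne hij with h1 | h1
    · exact key i j h1
    · exact (key j i h1).symm
  · intro i
    exact hSG _ _ (image_mono sdiff_subset)
  · intro x hx
    have hx1 : (⟨x, hx⟩ : B) ∈ ⋃ y ∈ t, S y := ht.2 (mem_univ _)
    obtain ⟨y, hy⟩ := mem_iUnion.1 hx1
    obtain ⟨hyt, hxy⟩ := mem_iUnion.1 hy
    have hex : ∃ i : Fin k, (⟨x, hx⟩ : B) ∈ T i := by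
      refine ⟨t.equivFin ⟨y, hyt⟩, ?_⟩
      simp only [hT, Equiv.symm_apply_apply]
      exact hxy
    have hne : (Finset.univ.filter fun i : Fin k => (⟨x, hx⟩ : B) ∈ T i).Nonempty := by
      obtain ⟨i, hi⟩ := hex
      exact ⟨i, by simpa using hi⟩
    set i₀ := (Finset.univ.filter fun i : Fin k => (⟨x, hx⟩ : B) ∈ T i).min' hne with hi₀
    have hi₀m := Finset.min'_mem _ hne
    rw [Finset.mem_filter] at hi₀m
    refine ⟨i₀, ⟨x, hx⟩, ⟨hi₀m.2, ?_⟩, rfl⟩
    intro hcon
    obtain ⟨j, hj⟩ := mem_iUnion.1 hcon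
    obtain ⟨hji, hxj⟩ := mem_iUnion.1 hj
    have := Finset.min'_le (Finset.univ.filter fun i : Fin k => (⟨x, hx⟩ : B) ∈ T i) j
      (by simpa using hxj)
    exact absurd hji (not_lt.2 this)

/-- **The theorem for closed manifolds.** -/
theorem diffeo [T2Space M] [CompactSpace M] [T2Space N] [ConnectedSpace N]
    (hn : 0 < n) (f : M ≃ₜ N) (U : Set M) (hU : IsOpen U) (hBU : ∀ x, ¬ LD n f x → x ∈ U)
    (h : ∀ x, ¬ LD n f x → ∃ (A : E n → M) (ψ : N → E n), Injective A ∧ (∀ z, LD n A z) ∧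
      connectedComponentIn {x | ¬ LD n f x} x ⊆ range A ∧ InjOn ψ (f '' range A) ∧
      (∀ z, LD n ψ (f (A z))) ∧ ∀ z, A z ∈ connectedComponentIn {x | ¬ LD n f x} x →
        NearLin n (eps n) (fun z => ψ (f (A z))) z) :
    ∃ f' : Diffeomorph (𝓡 n) (𝓡 n) M N ∞, ∀ x, x ∉ U → f' x = f x := by
  obtain ⟨k, Z, hZB, hZ, hd, hG, hB⟩ := exists_pieces f (eps n) h
  obtain ⟨f', hf', hf'U⟩ := many hn k f Z U hU (fun i x hx => hBU x (hZB i hx)) hZ hd hG hB
  refine ⟨{ toEquiv := f'.toEquiv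
            contMDiff_toFun := fun x => (hf' x).contMDiffAt
            contMDiff_invFun := fun y => ?_ }, hf'U⟩
  exact (LD.inverse_bij f'.bijective hf' (fun x => f'.symm_apply_apply x) y).contMDiffAt

end main

end Pool.Agent.Q235.NL
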