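import Pool.Agent.Q235.NL.Smooth
import Pool.Agent.Y522.Sch

/-!
# Schoenflies theorem for balls whose parametrization is close to linear at all small scales
-/

set_option autoImplicit false

open Set Filter Topology Metric Function MeasureTheory
open scoped Manifold ContDiff

noncomputable section

namespace Pool.Agent.Q235.NL

open Pool.Agent.Y522 Pool.Agent.Y514.SH

theorem sch (n : ℕ) (H : E n → E n) (δ : ℝ) (hδ : 0 < δ) (hHc : ContinuousOn H (ball 0 (1 + δ)))
    (hHi : InjOn H (ball 0 (1 + δ))) (hHL : ∀ x, 1 ≤ ‖x‖ → ‖x‖ < 1 + δ → LD n H x)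
    (hD : ∀ x, ‖x‖ < 1 → ¬ LD n H x → NearLin n (eps n) H x) :
    ∃ (G : E n → E n) (O : E n ≃ₗᵢ[ℝ] E n) (R' : ℝ), Bijective G ∧
      (∀ x, LD n G x) ∧ (∀ x, ‖x‖ = 1 → G x = H x) ∧
      G '' closedBall 0 1 = H '' closedBall 0 1 ∧ ∀ x, R' ≤ ‖x‖ → G x = O x := by
  have hsub : ball (0 : E n) 1 ⊆ ball 0 (1 + δ) := ball_subset_ball (by linarith)
  have hFc : Continuous (fun y => H (UB n y)) := by
    have h1 : ContinuousOn H (ball 0 1) := hHc.mono hsub
    exact h1.comp_continuous (UB_continuous n) fun x => mem_ball_zero_iff.2 (UB_norm _ x)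
  have hFi : Injective (fun y => H (UB n y)) := by
    intro x y hxy
    exact UB_inj n (hHi (hsub (mem_ball_zero_iff.2 (UB_norm _ x)))
      (hsub (mem_ball_zero_iff.2 (UB_norm _ y))) hxy)
  have hFo : IsOpenMap (fun y => H (UB n y)) := by
    refine IsOpenMap.of_nhds_le fun x s hs => ?_
    obtain ⟨r, hr, hrs⟩ := Metric.nhds_basis_closedBall.mem_iff.1 (Filter.mem_map.1 hs)
    have h1 := Pool.Agent.Helper514.IoD.image_mem_nhds (fun y => H (UB n y)) x r hr
      hFc.continuousOn hFi.injOn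
    refine mem_of_superset h1 ?_
    rintro _ ⟨y, hy, rfl⟩
    exact hrs hy
  have hFemb : IsOpenEmbedding (fun y => H (UB n y)) :=
    IsOpenEmbedding.of_continuous_injective_isOpenMap hFc hFi hFo
  -- the bad set
  have hop : IsOpen {y | LD n H y} := isOpen_iff_mem_nhds.2 fun y hy => LD.eventually hy
  have hK : IsCompact (closedBall (0 : E n) 1 ∩ {y | LD n H y}ᶜ) :=
    (isCompact_closedBall _ _).inter_right hop.isClosed_compl
  have hKb : closedBall (0 : E n) 1 ∩ {y | LD n H y}ᶜ ⊆ ball 0 1 := by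
    rintro y ⟨hy1, hy2⟩
    rw [mem_closedBall_zero_iff] at hy1
    rw [mem_ball_zero_iff]
    rcases hy1.lt_or_eq with h | h
    · exact h
    · exact absurd (hHL y h.ge (by linarith)) hy2
  obtain ⟨C, hC, hCb, hsm⟩ := smoothing n H (ball 0 1) isOpen_ball (hHc.mono hsub) _ hK hKb
    (by
      intro x hx hxK
      by_contra h
      exact hxK ⟨ball_subset_closedBall hx, h⟩)
    (by
      rintro x hx hxn
      exact hD x (mem_ball_zero_iff.1 (hKb hx)) hxn)
  -- the range
  have hVo : IsOpen (H '' ball 0 1) := by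
    rw [← range_comp_UB]
    exact hFemb.isOpen_range
  have hHC : IsCompact (H '' C) := hC.image_of_continuousOn (hHc.mono (hCb.trans hsub))
  obtain ⟨η, hη, hηV⟩ := hHC.exists_cthickening_subset_open hVo (image_mono hCb)
  obtain ⟨H', hH'C, hH'L, hH'η⟩ := hsm η hη
  have hmem : ∀ x ∈ ball (0 : E n) 1, H' x ∈ H '' ball 0 1 := by
    intro x hx
    by_cases hxC : x ∈ C
    · apply hηV
      refine mem_cthickening_of_dist_le _ (H x) _ _ (mem_image_of_mem _ hxC) ?_
      rw [dist_eq_norm]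
      exact hH'η x
    · rw [hH'C x hxC]
      exact mem_image_of_mem _ hx
  set C' : Set (E n) := (UB n).symm '' C with hC'
  have hC'c : IsCompact C' := by
    refine hC.image_of_continuousOn ((UB n).continuousOn_symm.mono ?_)
    rw [UB_target]
    exact hCb
  have hF'C : ∀ p, p ∉ C' → H' (UB n p) = H (UB n p) := by
    intro p hp
    apply hH'C
    intro hc
    exact hp ⟨_, hc, UB_left n p⟩
  have hF'L : ∀ x, LD n (fun y => H' (UB n y)) x := fun x =>
    (LD_iff n H' x).2 (hH'L _ (mem_ball_zero_iff.2 (UB_norm n x)))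
  obtain ⟨hinj, hran⟩ := Pool.Agent.Y702.SH.coverV n (E n) (fun y => H (UB n y))
    (fun y => H' (UB n y)) C' hFemb (isPreconnected_range hFc) hC'c hF'C
    (fun p => by
      rw [range_comp_UB]
      exact hmem _ (mem_ball_zero_iff.2 (UB_norm n p)))
    hF'L
  exact finish Pool.Agent.Y702.SH.extO n H δ hδ hHi hHL (fun y => H' (UB n y)) C' hC'c hinj hran
    hF'C hF'L

end Pool.Agent.Q235.NL
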