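import Pool.Agent.Q235.NL.Ker

/-!
# Smoothing of maps which are close to linear at all small scales
-/

set_option autoImplicit false

open Set Filter Topology Metric Function MeasureTheory
open scoped Manifold ContDiff Convolution

noncomputable section

namespace Pool.Agent.Q235.NL

open Pool.Agent.Y522 Pool.Agent.Y954.SH

variable {n : ℕ}

/-- `F` is close to linear at all small scales near `x` -/
def NearLin (n : ℕ) (ε : ℝ) (F : E n → E n) (x : E n) : Prop :=
  ∃ ρ : ℝ, 0 < ρ ∧ ∀ z, ‖z - x‖ < ρ → ∀ r, 0 < r → r < ρ → ∃ L : E n →L[ℝ] E n,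
    ∀ w, ‖w‖ ≤ r → ‖L (F (z + w) - F z) - w‖ ≤ ε * r

theorem NearLin.congr {ε : ℝ} {F F' : E n → E n} {x : E n} (h : NearLin n ε F x)
    (he : ∀ᶠ y in 𝓝 x, F' y = F y) : NearLin n ε F' x := by
  obtain ⟨ρ, hρ, h⟩ := h
  obtain ⟨δ, hδ, hδe⟩ := Metric.eventually_nhds_iff.1 he
  refine ⟨min ρ (δ / 2), lt_min hρ (by linarith), fun z hz r hr hr' => ?_⟩
  obtain ⟨L, hL⟩ := h z (hz.trans_le (min_le_left _ _)) r hr (hr'.trans_le (min_le_left _ _))
  refine ⟨L, fun w hw => ?_⟩
  have h1 := hz.trans_le (min_le_right _ _)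
  have h2 := hr'.trans_le (min_le_right _ _)
  rw [hδe (by rw [dist_eq_norm]; linarith : dist z x < δ), hδe (y := z + w)
    (by
      rw [dist_eq_norm, add_sub_right_comm]
      have := norm_add_le (z - x) w
      linarith)]
  exact hL w hw

/-- a linear endomorphism close to the identity, after a linear map, is bijective -/
lemma equiv_of_near {D L : E n →L[ℝ] E n} {c : ℝ} (hc : c < 1)
    (h : ∀ v, ‖L (D v) - v‖ ≤ c * ‖v‖) : ∃ A : E n ≃L[ℝ] E n, (A : E n →L[ℝ] E n) = D := by
  have hinj : Injective D := by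
    rw [injective_iff_map_eq_zero]
    intro v hv
    have h1 := h v
    rw [hv, map_zero, zero_sub, norm_neg] at h1
    have h2 : ‖v‖ ≤ 0 := by
      by_contra h3
      push Not at h3
      nlinarith
    exact norm_le_zero_iff.1 h2
  have hsurj : Surjective D := by
    have := (LinearMap.injective_iff_surjective (f := (D : E n →ₗ[ℝ] E n))).1 hinj
    exact this
  exact ⟨ContinuousLinearEquiv.ofBijective D (LinearMap.ker_eq_bot.2 hinj)
    (LinearMap.range_eq_top.2 hsurj), by ext v : 1; rfl⟩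

/-- compactness: a local uniform property holds uniformly on a compact set -/
lemma unif_of_local {K : Set (E n)} (hK : IsCompact K) (P : ℝ → E n → Prop)
    (hmono : ∀ ρ ρ' x, 0 < ρ' → ρ' ≤ ρ → P ρ x → P ρ' x)
    (hloc : ∀ x ∈ K, ∃ ρ : ℝ, 0 < ρ ∧ ∀ᶠ y in 𝓝[K] x, P ρ y) :
    ∃ ρ : ℝ, 0 < ρ ∧ ∀ x ∈ K, P ρ x := by
  refine hK.induction_on (p := fun S => ∃ ρ : ℝ, 0 < ρ ∧ ∀ x ∈ S, P ρ x)
    ⟨1, one_pos, fun x hx => absurd hx (notMem_empty x)⟩ ?_ ?_ ?_
  · rintro s t hst ⟨ρ, hρ, h⟩
    exact ⟨ρ, hρ, fun x hx => h x (hst hx)⟩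
  · rintro s t ⟨ρ, hρ, h⟩ ⟨ρ', hρ', h'⟩
    refine ⟨min ρ ρ', lt_min hρ hρ', fun x hx => ?_⟩
    rcases hx with hx | hx
    · exact hmono ρ _ x (lt_min hρ hρ') (min_le_left _ _) (h x hx)
    · exact hmono ρ' _ x (lt_min hρ hρ') (min_le_right _ _) (h' x hx)
  · intro x hx
    obtain ⟨ρ, hρ, h⟩ := hloc x hx
    exact ⟨_, h, ρ, hρ, fun y hy => hy⟩

/-- at a local diffeomorphism point the map is close to linear, uniformly nearby -/
lemma near_of_LD {F : E n → E n} {x : E n} (hF : LD n F x) {ε : ℝ} (hε : 0 < ε) :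
    ∃ ρ : ℝ, 0 < ρ ∧ ∀ᶠ y in 𝓝 x, ∃ L : E n →L[ℝ] E n,
      ∀ w, ‖w‖ ≤ ρ → ‖L (F (y + w) - F y) - w‖ ≤ ε * ‖w‖ := by
  obtain ⟨A, hA⟩ := hF.exists_equiv
  have hs : HasStrictFDerivAt F (A : E n →L[ℝ] E n) x :=
    hF.contDiffAt.hasStrictFDerivAt' hA (by simp)
  set B : E n →L[ℝ] E n := (A.symm : E n →L[ℝ] E n) with hB
  have hc : 0 < ε / (‖B‖ + 1) := by positivity
  have h1 : ∀ᶠ p : E n × E n in 𝓝 (x, x), ‖F p.1 - F p.2 - A (p.1 - p.2)‖ ≤
      ε / (‖B‖ + 1) * ‖p.1 - p.2‖ := hs.isLittleO.def hc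
  obtain ⟨δ, hδ, hδe⟩ := Metric.eventually_nhds_iff.1 h1
  refine ⟨δ / 2, by linarith, ?_⟩
  filter_upwards [Metric.ball_mem_nhds x (by linarith : (0:ℝ) < δ / 2)] with y hy
  refine ⟨B, fun w hw => ?_⟩
  rw [mem_ball, dist_eq_norm] at hy
  have h2 := hδe (y := (y + w, y)) (by
    rw [Prod.dist_eq, max_lt_iff]
    constructor
    · show dist (y + w) x < δ
      rw [dist_eq_norm, add_sub_right_comm]
      have := norm_add_le (y - x) w
      linarith
    · show dist y x < δ
      rw [dist_eq_norm]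
      linarith)
  simp only [add_sub_cancel_left] at h2
  have h3 : B (F (y + w) - F y) - w = B (F (y + w) - F y - A w) := by
    rw [map_sub B (F (y + w) - F y) (A w)]
    congr 1
    exact (A.symm_apply_apply w).symm
  rw [h3]
  calc ‖B (F (y + w) - F y - A w)‖ ≤ ‖B‖ * (ε / (‖B‖ + 1) * ‖w‖) :=
        (B.le_opNorm _).trans (mul_le_mul_of_nonneg_left h2 (norm_nonneg _))
    _ = (‖B‖ / (‖B‖ + 1)) * (ε * ‖w‖) := by ring
    _ ≤ 1 * (ε * ‖w‖) := by
        refine mul_le_mul_of_nonneg_right ?_ (by positivity)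
        rw [div_le_one (by positivity)]
        linarith
    _ = ε * ‖w‖ := one_mul _

/-- the constant -/
def eps (n : ℕ) : ℝ := 1 / (2 * (ck n + 1))

lemma eps_pos : 0 < eps n := by
  have := ck_nonneg (n := n)
  unfold eps
  positivity

lemma ck_eps : ck n * eps n ≤ 1 / 2 := by
  have h := ck_nonneg (n := n)
  unfold eps
  rw [mul_one_div, div_le_div_iff₀ (by positivity) (by norm_num)]
  linarith

/-- **Smoothing**: a map which is a local diffeomorphism on `O` outside a compact set, where it is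
close to linear at all small scales, can be changed on a compact subset of `O` to a local
diffeomorphism, with a small change. -/
theorem smoothing (n : ℕ) (F : E n → E n) (O : Set (E n)) (hO : IsOpen O)
    (hF : ContinuousOn F O) (K : Set (E n)) (hK : IsCompact K) (hKO : K ⊆ O)
    (hLD : ∀ x ∈ O, x ∉ K → LD n F x) (hnear : ∀ x ∈ K, ¬ LD n F x → NearLin n (eps n) F x) :
    ∃ C : Set (E n), IsCompact C ∧ C ⊆ O ∧ ∀ η : ℝ, 0 < η → ∃ F' : E n → E n,
      (∀ x, x ∉ C → F' x = F x) ∧ (∀ x ∈ O, LD n F' x) ∧ ∀ x, ‖F' x - F x‖ ≤ η := by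
  -- the bad set
  have hop : IsOpen {y | LD n F y} := isOpen_iff_mem_nhds.2 fun y hy => LD.eventually hy
  set Kb : Set (E n) := K ∩ {y | LD n F y}ᶜ with hKb
  have hKbc : IsCompact Kb := hK.inter_right hop.isClosed_compl
  have hKbO : Kb ⊆ O := fun x hx => hKO hx.1
  have hgood : ∀ x ∈ O, x ∉ Kb → LD n F x := by
    intro x hx hxb
    by_contra hn
    by_cases hxK : x ∈ K
    · exact hxb ⟨hxK, hn⟩
    · exact hn (hLD x hx hxK)
  -- uniform scale near the bad set
  obtain ⟨ρ₀, hρ₀, hρ₀'⟩ := unif_of_local hKbc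
    (fun ρ x => ∀ z, ‖z - x‖ < ρ → ∀ r, 0 < r → r < ρ → ∃ L : E n →L[ℝ] E n,
      ∀ w, ‖w‖ ≤ r → ‖L (F (z + w) - F z) - w‖ ≤ eps n * r)
    (fun ρ ρ' x _ hle h z hz r hr hr' => h z (hz.trans_le hle) r hr (hr'.trans_le hle))
    (by
      intro x hx
      obtain ⟨ρ, hρ, h⟩ := hnear x hx.1 hx.2
      refine ⟨ρ / 2, by linarith, mem_nhdsWithin_of_mem_nhds ?_⟩
      filter_upwards [Metric.ball_mem_nhds x (by linarith : (0:ℝ) < ρ / 2)] with y hy
      rw [mem_ball, dist_eq_norm] at hy
      intro z hz r hr hr'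
      refine h z ?_ r hr (by linarith)
      have h1 : z - x = (z - y) + (y - x) := by abel
      rw [h1]
      have := norm_add_le (z - y) (y - x)
      linarith)
  obtain ⟨δ₂, hδ₂, hδ₂O⟩ := hKbc.exists_cthickening_subset_open hO hKbO
  set δ₁ : ℝ := min (δ₂ / 2) (ρ₀ / 2) with hδ₁
  have hδ₁p : 0 < δ₁ := lt_min (by linarith) (by linarith)
  have hδ₁2 : δ₁ ≤ δ₂ / 2 := min_le_left _ _
  have hδ₁ρ : δ₁ ≤ ρ₀ / 2 := min_le_right _ _
  set D₂ : Set (E n) := cthickening δ₁ Kb with hD₂
  set D₃ : Set (E n) := cthickening δ₂ Kb with hD₃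
  have hD₂c : IsCompact D₂ := hKbc.cthickening
  have hD₃c : IsCompact D₃ := hKbc.cthickening
  have hD₂₃ : D₂ ⊆ D₃ := cthickening_mono (by linarith) _
  have hD₂O : D₂ ⊆ O := hD₂₃.trans hδ₂O
  -- the cut-off function
  have hKi : Kb ⊆ interior D₂ :=
    (self_subset_thickening hδ₁p Kb).trans
      (interior_maximal (thickening_subset_cthickening _ _) isOpen_thickening)
  obtain ⟨χ, hχ1, hχ0, hχI⟩ := exists_contMDiffMap_one_nhds_of_subset_interior
    (n := (⊤ : ℕ∞)) (I := 𝓘(ℝ, E n)) hKbc.isClosed hKi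
  have hχs : ContDiff ℝ ∞ χ := χ.contMDiff.contDiff
  refine ⟨D₂, hD₂c, hD₂O, fun η hη => ?_⟩
  -- the set where `χ` is locally one
  set W : Set (E n) := interior {x | χ x = 1} with hW
  have hWo : IsOpen W := isOpen_interior
  have hKW : Kb ⊆ W := by
    intro x hx
    have h1 : ∀ᶠ y in 𝓝 x, χ y = 1 := hχ1.filter_mono (nhds_le_nhdsSet hx)
    exact mem_interior_iff_mem_nhds.2 h1
  set T : Set (E n) := D₂ \ W with hT
  have hTc : IsCompact T := hD₂c.diff hWo
  have hTLD : ∀ x ∈ T, LD n F x := fun x hx => hgood x (hD₂O hx.1) fun h => hx.2 (hKW h)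
  have hDχ : ∃ B : ℝ, 0 ≤ B ∧ ∀ x ∈ D₂, ‖fderiv ℝ χ x‖ ≤ B := by
    obtain ⟨B, hB⟩ := hD₂c.exists_bound_of_continuousOn (f := fderiv ℝ χ)
      (hχs.continuous_fderiv (by simp)).continuousOn
    exact ⟨max B 0, le_max_right _ _, fun x hx => (hB x hx).trans (le_max_left _ _)⟩
  obtain ⟨B, hB0, hB⟩ := hDχ
  have hck := ck_nonneg (n := n)
  set ε₁ : ℝ := 1 / (4 * (ck n + 1)) with hε₁
  have hε₁p : 0 < ε₁ := by positivity
  have hε₁1 : ck n * ε₁ ≤ 1 / 4 := by
    rw [hε₁, mul_one_div, div_le_div_iff₀ (by positivity) (by norm_num)]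
    linarith
  have hε₁2 : ε₁ ≤ 1 / 4 := by
    rw [hε₁, div_le_div_iff₀ (by positivity) (by norm_num)]
    linarith
  obtain ⟨ρ₁, hρ₁, hρ₁'⟩ := unif_of_local hTc
    (fun ρ y => ∃ L : E n →L[ℝ] E n, ∀ w, ‖w‖ ≤ ρ → ‖L (F (y + w) - F y) - w‖ ≤ ε₁ * ‖w‖)
    (fun ρ ρ' x _ hle h => by
      obtain ⟨L, hL⟩ := h
      exact ⟨L, fun w hw => hL w (hw.trans hle)⟩)
    (by
      intro x hx
      obtain ⟨ρ, hρ, h⟩ := near_of_LD (hTLD x hx) hε₁p
      exact ⟨ρ, hρ, mem_nhdsWithin_of_mem_nhds h⟩)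
  -- uniform continuity
  have hFD : ContinuousOn F D₃ := hF.mono hδ₂O
  have huc := hD₃c.uniformContinuousOn_of_continuous hFD
  rw [Metric.uniformContinuousOn_iff] at huc
  obtain ⟨ρ₂, hρ₂, hρ₂'⟩ := huc η hη
  -- the scale
  set s : ℝ := min (min (δ₂ / 4) (ρ₀ / 4)) (min (min ρ₁ (ρ₂ / 2)) (1 / (B + 1))) with hs
  have hsp : 0 < s := by
    refine lt_min (lt_min (by linarith) (by linarith)) (lt_min (lt_min hρ₁ (by linarith)) ?_)
    positivity
  have hs1 : s ≤ δ₂ / 4 := (min_le_left _ _).trans (min_le_left _ _)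
  have hs2 : s ≤ ρ₀ / 4 := (min_le_left _ _).trans (min_le_right _ _)
  have hs3 : s ≤ ρ₁ := (min_le_right _ _).trans ((min_le_left _ _).trans (min_le_left _ _))
  have hs4 : s ≤ ρ₂ / 2 := (min_le_right _ _).trans ((min_le_left _ _).trans (min_le_right _ _))
  have hs5 : s ≤ 1 / (B + 1) := (min_le_right _ _).trans (min_le_right _ _)
  have hBs : B * s ≤ 1 := by
    calc B * s ≤ B * (1 / (B + 1)) := mul_le_mul_of_nonneg_left hs5 hB0
      _ ≤ 1 := by
        rw [mul_one_div, div_le_one (by linarith)]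
        linarith
  -- the truncated map
  set Fh : E n → E n := D₃.indicator F with hFh
  have hFhi : LocallyIntegrable Fh volume := by
    refine Integrable.locallyIntegrable ?_
    rw [hFh, integrable_indicator_iff hD₃c.measurableSet]
    exact hFD.integrableOn_compact hD₃c
  have hmemD₃ : ∀ x ∈ D₂, ∀ w : E n, ‖w‖ ≤ s → x + w ∈ D₃ := by
    intro x hx w hw
    have h1 := (cthickening_cthickening_subset (ε := δ₂ / 4) (δ := δ₁) (by linarith) hδ₁p.le Kb)
    have h2 : x + w ∈ cthickening (δ₂ / 4) (cthickening δ₁ Kb) := by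
      refine mem_cthickening_of_dist_le _ x _ _ hx ?_
      rw [dist_eq_norm, add_sub_cancel_left]
      linarith
    exact cthickening_mono (by linarith) _ (h1 h2)
  have hFheq : ∀ x ∈ D₂, ∀ w : E n, ‖w‖ ≤ s → Fh (x + w) = F (x + w) := fun x hx w hw =>
    indicator_of_mem (hmemD₃ x hx w hw) _
  have hFheq0 : ∀ x ∈ D₂, Fh x = F x := fun x hx => indicator_of_mem (hD₂₃ hx) _
  have hMSm : ContDiff ℝ ∞ (MS s Fh) := MS_smooth hFhi hsp
  set F' : E n → E n := fun x => F x + χ x • (MS s Fh x - F x) with hF'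
  refine ⟨F', ?_, ?_, ?_⟩
  · intro x hx
    simp only [hF', hχ0 x hx, zero_smul, add_zero]
  · intro x hxO
    by_cases hxD : x ∈ D₂
    · by_cases hxW : x ∈ W
      · -- `χ = 1` near `x`
        have h1 : F' =ᶠ[𝓝 x] MS s Fh := by
          filter_upwards [hWo.mem_nhds hxW] with y hy
          have h0 : y ∈ {x | χ x = 1} := interior_subset hy
          have : χ y = 1 := h0
          simp only [hF', this, one_smul]
          abel
        have h2 : ∃ y ∈ Kb, ‖x - y‖ < ρ₀ := by
          have h3 : x ∈ thickening ρ₀ Kb := cthickening_subset_thickening' hρ₀ (by linarith) _ hxD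
          rw [mem_thickening_iff] at h3
          obtain ⟨y, hy, hxy⟩ := h3
          exact ⟨y, hy, by rwa [dist_eq_norm] at hxy⟩
        obtain ⟨y, hy, hxy⟩ := h2
        obtain ⟨L, hL⟩ := hρ₀' y hy x hxy s hsp (by linarith)
        obtain ⟨k1, -⟩ := MS_near hFhi hsp (x := x) (L := L) (ε := eps n) (by
          intro w hw
          rw [hFheq x hxD w hw, hFheq0 x hxD]
          exact hL w hw)
        obtain ⟨A, hA⟩ := equiv_of_near (D := fderiv ℝ (MS s Fh) x) (L := L) (c := 1 / 2)
          (by norm_num) (fun v => (k1 v).trans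
            (mul_le_mul_of_nonneg_right ck_eps (norm_nonneg _)))
        refine (LD_of_contDiffAt (Eventually.of_forall fun y => hMSm.contDiffAt) A ?_).congr h1
        rw [hA]
        exact (hMSm.differentiable (by simp) x).hasFDerivAt
      · -- `F` is a local diffeomorphism at `x`
        have hxT : x ∈ T := ⟨hxD, hxW⟩
        have hxL := hTLD x hxT
        have h1 : ∀ᶠ y in 𝓝 x, ContDiffAt ℝ ∞ F' y := by
          filter_upwards [hxL.eventually] with y hy
          have h2 : ContDiffAt ℝ ∞ F y := hy.contDiffAt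
          exact h2.add (hχs.contDiffAt.smul (hMSm.contDiffAt.sub h2))
        obtain ⟨L, hL⟩ := hρ₁' x hxT
        have hFd : HasFDerivAt F (fderiv ℝ F x) x :=
          (hxL.contDiffAt.differentiableAt (by simp)).hasFDerivAt
        have hMd : HasFDerivAt (MS s Fh) (fderiv ℝ (MS s Fh) x) x :=
          (hMSm.differentiable (by simp) x).hasFDerivAt
        have hχd : HasFDerivAt χ (fderiv ℝ χ x) x :=
          (hχs.differentiable (by simp) x).hasFDerivAt
        obtain ⟨k1, k2⟩ := MS_near hFhi hsp (x := x) (L := L) (ε := ε₁) (by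
          intro w hw
          rw [hFheq x hxD w hw, hFheq0 x hxD]
          exact (hL w (hw.trans hs3)).trans (mul_le_mul_of_nonneg_left hw hε₁p.le))
        rw [hFheq0 x hxD] at k2
        -- the derivative of `F`
        have k3 : ∀ v, ‖L (fderiv ℝ F x v) - v‖ ≤ ε₁ * ‖v‖ := by
          intro v
          have hG : HasFDerivAt (fun y => L (F y - F x) - (y - x))
              (L.comp (fderiv ℝ F x) - ContinuousLinearMap.id ℝ (E n)) x := by
            have h3 := L.hasFDerivAt.comp x (hFd.sub_const (F x))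
            exact h3.sub ((hasFDerivAt_id x).sub_const x)
          have h4 : ‖L.comp (fderiv ℝ F x) - ContinuousLinearMap.id ℝ (E n)‖ ≤ ε₁ := by
            refine hG.le_of_lip' hε₁p.le ?_
            filter_upwards [Metric.ball_mem_nhds x hρ₁] with y hy
            rw [mem_ball, dist_eq_norm] at hy
            have h5 := hL (y - x) hy.le
            rw [add_sub_cancel] at h5
            simpa using h5
          have h6 := (L.comp (fderiv ℝ F x) - ContinuousLinearMap.id ℝ (E n)).le_opNorm v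
          refine le_trans (le_of_eq ?_) (h6.trans (mul_le_mul_of_nonneg_right h4 (norm_nonneg _)))
          rfl
        have hd : HasFDerivAt F' (fderiv ℝ F x + (χ x • (fderiv ℝ (MS s Fh) x - fderiv ℝ F x) +
            (fderiv ℝ χ x).smulRight (MS s Fh x - F x))) x :=
          hFd.add (hχd.smul (hMd.sub hFd))
        obtain ⟨A, hA⟩ := equiv_of_near (D := fderiv ℝ F x + (χ x •
            (fderiv ℝ (MS s Fh) x - fderiv ℝ F x) +
            (fderiv ℝ χ x).smulRight (MS s Fh x - F x))) (L := L) (c := 3 / 4)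
          (by norm_num) (by
            intro v
            have hχx := hχI x
            have e1 : L ((fderiv ℝ F x + (χ x • (fderiv ℝ (MS s Fh) x - fderiv ℝ F x) +
                (fderiv ℝ χ x).smulRight (MS s Fh x - F x))) v) - v =
                (1 - χ x) • (L (fderiv ℝ F x v) - v) + χ x • (L (fderiv ℝ (MS s Fh) x v) - v) +
                  (fderiv ℝ χ x v) • L (MS s Fh x - F x) := by
              simp only [_root_.add_apply, _root_.smul_apply,
                _root_.sub_apply, ContinuousLinearMap.smulRight_apply, map_add,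
                map_smul, map_sub, smul_sub, sub_smul, one_smul]
              abel
            rw [e1]
            have b1 : ‖(1 - χ x) • (L (fderiv ℝ F x v) - v)‖ ≤ (1 - χ x) * (1 / 4 * ‖v‖) := by
              rw [norm_smul, Real.norm_of_nonneg (by linarith [hχx.2])]
              refine mul_le_mul_of_nonneg_left ((k3 v).trans ?_) (by linarith [hχx.2])
              exact mul_le_mul_of_nonneg_right hε₁2 (norm_nonneg _)
            have b2 : ‖χ x • (L (fderiv ℝ (MS s Fh) x v) - v)‖ ≤ χ x * (1 / 4 * ‖v‖) := by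
              rw [norm_smul, Real.norm_of_nonneg hχx.1]
              refine mul_le_mul_of_nonneg_left ((k1 v).trans ?_) hχx.1
              exact mul_le_mul_of_nonneg_right hε₁1 (norm_nonneg _)
            have b3 : ‖(fderiv ℝ χ x v) • L (MS s Fh x - F x)‖ ≤ 1 / 4 * ‖v‖ := by
              rw [norm_smul]
              calc ‖fderiv ℝ χ x v‖ * ‖L (MS s Fh x - F x)‖ ≤ (B * ‖v‖) * (ε₁ * s) :=
                    mul_le_mul (((fderiv ℝ χ x).le_opNorm v).trans
                      (mul_le_mul_of_nonneg_right (hB x hxD) (norm_nonneg _))) k2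
                      (norm_nonneg _) (by positivity)
                _ = (B * s) * (ε₁ * ‖v‖) := by ring
                _ ≤ 1 * (1 / 4 * ‖v‖) :=
                    mul_le_mul hBs (mul_le_mul_of_nonneg_right hε₁2 (norm_nonneg _))
                      (by positivity) zero_le_one
                _ = 1 / 4 * ‖v‖ := one_mul _
            have b4 := norm_add₃_le (a := (1 - χ x) • (L (fderiv ℝ F x v) - v))
              (b := χ x • (L (fderiv ℝ (MS s Fh) x v) - v))
              (c := (fderiv ℝ χ x v) • L (MS s Fh x - F x))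
            have hv := norm_nonneg v
            nlinarith)
        exact LD_of_contDiffAt h1 A (by rw [hA]; exact hd)
    · -- `x ∉ D₂`
      have h1 : F' =ᶠ[𝓝 x] F := by
        filter_upwards [hD₂c.isClosed.isOpen_compl.mem_nhds hxD] with y hy
        simp only [hF', hχ0 y hy, zero_smul, add_zero]
      exact (hgood x hxO fun h => hxD (self_subset_cthickening _ h)).congr h1
  · intro x
    by_cases hxD : x ∈ D₂
    · have h1 : ‖MS s Fh x - F x‖ ≤ η := by
        rw [← hFheq0 x hxD]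
        refine MS_close hFhi hsp fun w hw => ?_
        rw [hFheq x hxD w hw, hFheq0 x hxD]
        have h2 := hρ₂' (x + w) (hmemD₃ x hxD w hw) x (hD₂₃ hxD) (by
          rw [dist_eq_norm, add_sub_cancel_left]
          linarith)
        rw [dist_eq_norm] at h2
        exact h2.le
      have hχx := hχI x
      simp only [hF', add_sub_cancel_left]
      rw [norm_smul, Real.norm_of_nonneg hχx.1]
      calc χ x * ‖MS s Fh x - F x‖ ≤ 1 * η :=
            mul_le_mul hχx.2 h1 (norm_nonneg _) zero_le_one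
        _ = η := one_mul η
    · simp only [hF', hχ0 x hxD, zero_smul, add_zero, sub_self, norm_zero]
      exact hη.le

end Pool.Agent.Q235.NL
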